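import Pool.Agent.Lib.P47s.BaseP

/-!
Families of sets with a coverage gap and perfect completeness on at least `n` positions (the theorem
`baseP` of `Pool/Agent/Lib/P47s/BaseP.lean` with the lower bound for the number of positions).
-/

open scoped BigOperators

namespace Pool.Agent.Lib.P47m

open Pool.Agent.Lib.P47c (cov unc)
open Pool.Agent.Lib.P47s

theorem baseQ (ε : ℝ) (hε : 0 < ε) : ∃ (Ω : Type) (_ : Fintype Ω) (_ : DecidableEq Ω)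
    (_ : Nonempty Ω) (Q C n0 : ℕ), 2 ≤ Fintype.card Ω ∧ 1 ≤ C ∧
    ∀ n ≥ n0, ∃ (V : Type) (_ : Fintype V) (M : ℕ) (near : Fin M → Finset (V × Ω)) (r : ℕ)
      (E : ((V → Ω) → ℝ) →ₗ[ℝ] ℝ),
      Nonempty V ∧ 0 < M ∧ M ≤ C * n ∧ n ≤ Fintype.card V ∧ Fintype.card V ≤ C * n ∧ (∀ j, (near j).card ≤ Q) ∧
      (2 * (n : ℝ)) ^ (1 / 4 : ℝ) ≤ r ∧ IsSosExpectation r E ∧ 1 ≤ E (cov near) ∧
      ∀ A : Finset (V × Ω), Real.exp (-((A.card : ℝ) / Fintype.card V)) - ε ≤ unc near A := by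
  classical
  obtain ⟨l, M, δ, D, q, hl2, herr, hδ0, hδ1, hD6, h7, hqp, hDq, h9⟩ := BasePAux.params ε hε
  have hf : Fact q.Prime := ⟨hqp⟩
  have hqz : NeZero q := ⟨hqp.ne_zero⟩
  have hD8 : D ≤ D ^ 8 := Nat.le_self_pow (by norm_num) D
  have hq2 : 2 ≤ q := hqp.two_le
  have hC1 : 1 ≤ (D ^ 8) ^ l * l ^ q := by
    have h1 : 0 < (D ^ 8) ^ l := pow_pos (by omega) _
    have h2 : 0 < l ^ q := pow_pos (by omega) _
    exact Nat.succ_le_of_lt (Nat.mul_pos h1 h2)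
  obtain ⟨n1, hn1⟩ := selG D hD6
  obtain ⟨n2, hn2⟩ := numP (D ^ 8) l
  refine ⟨ZMod q × ZMod q, inferInstance, inferInstance, inferInstance, l * (q * q),
    (D ^ 8) ^ l * l ^ q, max (max n1 n2) 1, ?_, hC1, fun n hn => ?_⟩
  · rw [Fintype.card_prod, ZMod.card]
    nlinarith
  have hn0 : 1 ≤ n := le_of_max_le_right hn
  obtain ⟨g1, g2, g3, g4⟩ := hn2 n (le_of_max_le_right (le_of_max_le_left hn))
  obtain ⟨π, hπ⟩ := hn1 n (le_of_max_le_left (le_of_max_le_left hn)) (Nat.sqrt n / 3) g1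
  obtain ⟨b, hb⟩ := shiftB n (D ^ 8) q δ hn0 hδ0 hδ1 h9 h7 (fun e => π e.2 e.1)
  obtain ⟨E, hE, hv⟩ := sysP (S := Nat.sqrt n / 3 / (D ^ 8 + 1)) (R := Nat.sqrt n / 3)
    (d := Nat.sqrt n / 3 / (D ^ 8 + 1) / 4) hDq π hπ (Nat.mul_div_le _ _) g2 (Nat.mul_div_le _ _)
    ⟨0, by omega⟩ ⟨1, by omega⟩ rfl rfl b
  obtain ⟨E', hE', hcov⟩ := compP (l := l) (r := Nat.sqrt n / 3 / (D ^ 8 + 1) / 4 / 2 / 2) hn0
    (by omega) (Nat.div_mul_le_self _ _) g3 π b ⟨0, by omega⟩ ⟨1, by omega⟩ E hE hv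
  have hcT := BasePAux.card_testP n (D ^ 8) q l
  refine ⟨Fin n, inferInstance, Fintype.card (TestP n (D ^ 8) q l),
    fun j => nearP π b ((Fintype.equivFin (TestP n (D ^ 8) q l)).symm j),
    Nat.sqrt n / 3 / (D ^ 8 + 1) / 4 / 2 / 2, E', ⟨⟨0, hn0⟩⟩, ?_, ?_,
    (Fintype.card_fin n).ge, ?_,
    fun j => BasePAux.card_nearP _ _ _, g4, hE', ?_, fun A => ?_⟩
  · rw [hcT]
    exact Nat.mul_pos hn0 hC1
  · rw [hcT, mul_comm]
  · rw [Fintype.card_fin]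
    exact Nat.le_mul_of_pos_left _ hC1
  · rw [Pool.Agent.Lib.P47c.BaseCAux.cov_comp
      (Fintype.equivFin (TestP n (D ^ 8) q l)).symm (nearP π b)]
    exact hcov
  · rw [Pool.Agent.Lib.P47c.BaseCAux.unc_comp
      (Fintype.equivFin (TestP n (D ^ 8) q l)).symm (nearP π b)]
    have h1 := soundP M hn0 (by omega : 1 ≤ D ^ 8) hl2 π b δ hδ0.le hb A
    rw [Fintype.card_fin]
    linarith

end Pool.Agent.Lib.P47m
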