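import Pool.Agent.Lib.P47c.Model

/-!
k-median instances with isolated clients, and approximation of the optimum with another number of
centres.
-/

open scoped BigOperators

namespace Pool.Agent.Lib.P47m

open Pool.Agent.Lib.P47c (Inst)

/-- The instance `I` has no opening costs and the distances 1 and `D` apart from `u` isolated
clients: there are a nonempty set `F` of main facilities, `u` different clients `c r` of the
instance (the isolated clients) and `u` nonempty sets `own r` of facilities, where `F` and the sets
`own r` are pairwise disjoint, such that
* `c r` has distance at most 1 from every facility in `own r` and distance at least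
  `D * (number of clients) + 1` from every other facility;
* every other client of the instance has distance 1 or `D` from every main facility and distance at
  least `D` from every other facility. -/
def Isolated {m M : ℕ} (D : ℝ) (u : ℕ) (I : Inst m M) : Prop :=
  (∀ i, I.opening i = 0) ∧
  ∃ (F : Finset (Fin m)) (c : Fin u ↪ Fin M) (own : Fin u → Finset (Fin m)),
    F.Nonempty ∧ (∀ r, c r ∈ I.clients ∧ (own r).Nonempty ∧ Disjoint F (own r)) ∧
    (∀ r r', r ≠ r' → Disjoint (own r) (own r')) ∧
    (∀ r i, (i ∈ own r → I.space.dist (Sum.inl i) (Sum.inr (c r)) ≤ 1) ∧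
      (i ∉ own r → D * I.clients.card + 1 ≤ I.space.dist (Sum.inl i) (Sum.inr (c r)))) ∧
    ∀ j ∈ I.clients, (∀ r, c r ≠ j) → ∀ i,
      (i ∈ F → I.space.dist (Sum.inl i) (Sum.inr j) = 1 ∨
        I.space.dist (Sum.inl i) (Sum.inr j) = D) ∧
      (i ∉ F → D ≤ I.space.dist (Sum.inl i) (Sum.inr j))

/-- The program with the set `Feas` of feasible points, in which the nonempty set `S` of at most `k`
open facilities with the assignment `σ` is the point `pt S σ`, approximates the minimum cost of at
most `K` open facilities within the factor `b`: some affine function `w y + w0`, which is equal to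
`cost S` at `pt S σ` whenever `S` is nonempty with at most `k` elements and `σ` sends every client
of the instance to a nearest facility in `S`, is on `Feas` at least `1 / b` times the minimum cost
of a nonempty set of at most `K` facilities. -/
def ApproxCentres {m M : ℕ} (I : Inst m M) {Y : Type} [AddCommGroup Y] [Module ℝ Y] (Feas : Set Y)
    (pt : Finset (Fin m) → (Fin M → Fin m) → Y) (k K : ℕ) (b : ℝ) : Prop :=
  ∃ (w : Y →ₗ[ℝ] ℝ) (w0 : ℝ),
    (∀ S σ, S.Nonempty → S.card ≤ k → I.Nearest S σ → w (pt S σ) + w0 = I.cost S) ∧
    ∀ y ∈ Feas, I.opt (fun S => S.Nonempty ∧ S.card ≤ K) / b ≤ w y + w0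

end Pool.Agent.Lib.P47m
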