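import Pool.Agent.Lib.P47c.KI

/-!
The instances for k-median with the distances 1 and `D` (the instances `instK` of
`Pool/Agent/Lib/P47c/KI.lean` have `D = 3`).
-/

open scoped BigOperators

namespace Pool.Agent.Lib.P47m

open Pool.Agent.Lib.P325P (mean)
open Pool.Agent.Lib.P47c
open Pool.Agent.Lib.P47c.KIAux (extend_rename dist_map_eq space_ext inst_ext grpK_F grpK_C grpK_none
  grpK_u grpK_rename near_rename)

variable {m M : ℕ} {V U Ω T : Type}

/-- The space of a group. -/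
noncomputable def deltaD (Φ : (V ⊕ U) × Ω ↪ Fin m) (ψ : T ⊕ U ↪ Fin M)
    (near : T → Finset (V × Ω)) (D : ℝ) (hD1 : 1 ≤ D) (hD3 : D ≤ 3) (τ : ℝ) (hτ : 0 < τ) :
    Option (Option U) → Space m M
  | some none => twoSpace (nearK Φ ψ near) D hD1 hD3
  | none => eqSpace m M τ hτ
  | some (some _) => eqSpace m M τ hτ

theorem deltaD_le (Φ : (V ⊕ U) × Ω ↪ Fin m) (ψ : T ⊕ U ↪ Fin M)
    (near : T → Finset (V × Ω)) (D : ℝ) (hD1 : 1 ≤ D)
    (hD3 : D ≤ 3) (τ H : ℝ) (hτ : 0 < τ) (hτH : τ ≤ H) (hH : D ≤ H)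
    (g : Option (Option U)) (x y : Fin m ⊕ Fin M) :
    (deltaD Φ ψ near D hD1 hD3 τ hτ g).dist x y ≤ 2 * H := by
  have h1 : (twoSpace (nearK Φ ψ near) D hD1 hD3).dist x y ≤ 2 * H := by
    show twoDist _ _ x y ≤ 2 * H
    rcases x with i | j <;> rcases y with i' | j' <;> simp only [twoDist] <;> split_ifs <;>
      linarith
  have h2 : (eqSpace m M τ hτ).dist x y ≤ τ := by
    show (if x = y then 0 else τ) ≤ τ
    split_ifs
    · exact hτ.le
    · exact le_rfl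
  rcases g with _ | _ | u
  · show (eqSpace m M τ hτ).dist x y ≤ 2 * H
    linarith
  · show (twoSpace (nearK Φ ψ near) D hD1 hD3).dist x y ≤ 2 * H
    linarith
  · show (eqSpace m M τ hτ).dist x y ≤ 2 * H
    linarith

/-- The instance for k-median: the facilities `Φ (v, c)`, `v : V`, and the clients of the tests form
a space with distances 1, 2, `D`, the facilities `Φ (u, c)` and the client of `u` have mutual
distances `τ`, and different groups have distance `H`. There are no opening costs. -/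
noncomputable def instD [Fintype T] [Fintype U] (Φ : (V ⊕ U) × Ω ↪ Fin m) (ψ : T ⊕ U ↪ Fin M)
    (near : T → Finset (V × Ω)) (D : ℝ) (hD1 : 1 ≤ D)
    (hD3 : D ≤ 3) (τ H : ℝ) (hτ : 0 < τ) (hτH : τ ≤ H) (hH : D ≤ H) : Inst m M where
  space := glue (grpK Φ ψ) (deltaD Φ ψ near D hD1 hD3 τ hτ) H (by linarith) (deltaD_le Φ ψ near D hD1 hD3 τ H hτ hτH hH)
  opening := fun _ => 0
  opening_nonneg := fun _ => le_rfl
  clients := Finset.univ.map ψ

namespace KDAux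

theorem delta_rename (Φ : (V ⊕ U) × Ω ↪ Fin m) (ψ : T ⊕ U ↪ Fin M)
    (near : T → Finset (V × Ω)) (D : ℝ) (hD1 : 1 ≤ D) (hD3 : D ≤ 3) (τ : ℝ) (hτ : 0 < τ)
    (g : Equiv.Perm (Fin m)) (h : Equiv.Perm (Fin M)) (g0 : Option (Option U)) (x y : Fin m ⊕ Fin M) :
    (deltaD Φ ψ near D hD1 hD3 τ hτ g0).dist (Sum.map g.symm h.symm x) (Sum.map g.symm h.symm y) =
      (deltaD (Φ.trans g.toEmbedding) (ψ.trans h.toEmbedding) near D hD1 hD3 τ hτ
        g0).dist x y := by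
  have heq : (eqSpace m M τ hτ).dist (Sum.map g.symm h.symm x) (Sum.map g.symm h.symm y) =
      (eqSpace m M τ hτ).dist x y := by
    show (if Sum.map g.symm h.symm x = Sum.map g.symm h.symm y then 0 else τ) =
      if x = y then 0 else τ
    by_cases h' : x = y
    · rw [if_pos h', if_pos ((dist_map_eq x y).2 h')]
    · rw [if_neg h', if_neg (fun h'' => h' ((dist_map_eq x y).1 h''))]
  rcases g0 with _ | _ | u
  · exact heq
  · show twoDist _ _ (Sum.map g.symm h.symm x) (Sum.map g.symm h.symm y) = twoDist _ _ x y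
    rcases x with i | j <;> rcases y with i' | j'
    · show (if g.symm i = g.symm i' then (0 : ℝ) else 2) = if i = i' then (0 : ℝ) else 2
      by_cases h' : i = i'
      · rw [if_pos h', if_pos (by rw [h'])]
      · rw [if_neg h', if_neg (fun h'' => h' (g.symm.injective h''))]
    · have hn := near_rename Φ ψ near g h i j'
      simp only [Sum.map_inl, Sum.map_inr, twoDist]
      by_cases h' : g.symm i ∈ nearK Φ ψ near (h.symm j')
      · rw [if_pos h', if_pos (hn.1 h')]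
      · rw [if_neg h', if_neg (fun h'' => h' (hn.2 h''))]
    · have hn := near_rename Φ ψ near g h i' j
      simp only [Sum.map_inl, Sum.map_inr, twoDist]
      by_cases h' : g.symm i' ∈ nearK Φ ψ near (h.symm j)
      · rw [if_pos h', if_pos (hn.1 h')]
      · rw [if_neg h', if_neg (fun h'' => h' (hn.2 h''))]
    · show (if h.symm j = h.symm j' then (0 : ℝ) else 2) = if j = j' then (0 : ℝ) else 2
      by_cases h' : j = j'
      · rw [if_pos h', if_pos (by rw [h'])]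
      · rw [if_neg h', if_neg (fun h'' => h' (h.symm.injective h''))]
  · exact heq

/-- the sum over the tests -/
theorem sum_tests [Fintype T] (near : T → Finset (V × Ω)) (A : Finset (V × Ω)) (D : ℝ)
    (f : T → ℝ) (hf : ∀ t, (Disjoint (near t) A → f t = D) ∧ (¬ Disjoint (near t) A → f t = 1)) :
    ∑ t, f t = Fintype.card T * (1 + (D - 1) * unc near A) := by
  classical
  have h1 : (Fintype.card T : ℝ) * unc near A =
      ∑ t, (if Disjoint (near t) A then (1 : ℝ) else 0) := by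
    unfold unc mean
    rcases Nat.eq_zero_or_pos (Fintype.card T) with h0 | h0
    · have : IsEmpty T := Fintype.card_eq_zero_iff.1 h0
      simp
    · have h0' : (Fintype.card T : ℝ) ≠ 0 := by exact_mod_cast h0.ne'
      rw [mul_div_cancel₀ _ h0']
  have h2 : (Fintype.card T : ℝ) * (1 + (D - 1) * unc near A) =
      Fintype.card T + (D - 1) * (Fintype.card T * unc near A) := by ring
  rw [h2, h1, Finset.mul_sum]
  have h3 : (Fintype.card T : ℝ) = ∑ _t : T, (1 : ℝ) := by simp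
  rw [h3, ← Finset.sum_add_distrib]
  refine Finset.sum_congr rfl fun t _ => ?_
  by_cases h : Disjoint (near t) A
  · rw [if_pos h, (hf t).1 h]
    ring
  · rw [if_neg h, (hf t).2 h]
    ring

open Classical in
/-- the lower bounds -/
noncomputable def bd (near : T → Finset (V × Ω)) (A : Finset (V × Ω)) (D a : ℝ) : T ⊕ U → ℝ :=
  Sum.elim (fun t => if Disjoint (near t) A then D else 1) (fun _ => a)

theorem bd_inl (near : T → Finset (V × Ω)) (A : Finset (V × Ω)) (D a : ℝ) (t : T) :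
    (Disjoint (near t) A → bd (U := U) near A D a (Sum.inl t) = D) ∧
      (¬ Disjoint (near t) A → bd (U := U) near A D a (Sum.inl t) = 1) := by
  constructor
  · intro h
    exact if_pos h
  · intro h
    exact if_neg h

theorem bd_le_D (near : T → Finset (V × Ω)) (A : Finset (V × Ω)) (D a : ℝ) (hD1 : 1 ≤ D)
    (t : T) : bd (U := U) near A D a (Sum.inl t) ≤ D := by
  by_cases h : Disjoint (near t) A
  · exact ((bd_inl near A D a t).1 h).le
  · rw [(bd_inl near A D a t).2 h]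
    exact hD1

/-- the lower bounds on the clients -/
noncomputable def bc (ψ : T ⊕ U ↪ Fin M) (near : T → Finset (V × Ω)) (A : Finset (V × Ω))
    (D a : ℝ) : Fin M → ℝ :=
  Function.extend ψ (bd near A D a) (fun _ => 0)

theorem bc_apply (ψ : T ⊕ U ↪ Fin M) (near : T → Finset (V × Ω)) (A : Finset (V × Ω))
    (D a : ℝ) (q : T ⊕ U) : bc ψ near A D a (ψ q) = bd near A D a q :=
  ψ.injective.extend_apply _ _ q

theorem sum_bc [Fintype T] [Fintype U] (ψ : T ⊕ U ↪ Fin M) (near : T → Finset (V × Ω))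
    (A : Finset (V × Ω)) (D a : ℝ) :
    ∑ j ∈ Finset.univ.map ψ, bc ψ near A D a j =
      Fintype.card T * (1 + (D - 1) * unc near A) + Fintype.card U * a := by
  rw [Finset.sum_map]
  have h1 : ∀ q, bc ψ near A D a (ψ q) = bd near A D a q := bc_apply ψ near A D a
  simp only [h1]
  rw [Fintype.sum_sum_type, sum_tests near A D _ (bd_inl near A D a)]
  congr 1
  show ∑ _u : U, a = _
  rw [Finset.sum_const, Finset.card_univ, nsmul_eq_mul]

end KDAux

open KDAux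

variable [Fintype T] [Fintype U]

namespace KDAux

theorem dist_same (Φ : (V ⊕ U) × Ω ↪ Fin m) (ψ : T ⊕ U ↪ Fin M)
    (near : T → Finset (V × Ω)) (D : ℝ) (hD1 : 1 ≤ D)
    (hD3 : D ≤ 3) (τ H : ℝ) (hτ : 0 < τ) (hτH : τ ≤ H) (hH : D ≤ H)
    (x y : Fin m ⊕ Fin M) (h : grpK Φ ψ x = grpK Φ ψ y) :
    (instD Φ ψ near D hD1 hD3 τ H hτ hτH hH).space.dist x y =
      (deltaD Φ ψ near D hD1 hD3 τ hτ (grpK Φ ψ x)).dist x y :=
  if_pos h

theorem dist_diff (Φ : (V ⊕ U) × Ω ↪ Fin m) (ψ : T ⊕ U ↪ Fin M)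
    (near : T → Finset (V × Ω)) (D : ℝ) (hD1 : 1 ≤ D)
    (hD3 : D ≤ 3) (τ H : ℝ) (hτ : 0 < τ) (hτH : τ ≤ H) (hH : D ≤ H)
    (x y : Fin m ⊕ Fin M) (h : grpK Φ ψ x ≠ grpK Φ ψ y) :
    (instD Φ ψ near D hD1 hD3 τ H hτ hτH hH).space.dist x y = H :=
  if_neg h

/-- the distance of a facility and the client of a test -/
theorem dist_test (Φ : (V ⊕ U) × Ω ↪ Fin m) (ψ : T ⊕ U ↪ Fin M)
    (near : T → Finset (V × Ω)) (D : ℝ) (hD1 : 1 ≤ D)
    (hD3 : D ≤ 3) (τ H : ℝ) (hτ : 0 < τ) (hτH : τ ≤ H) (hH : D ≤ H)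
    (i : Fin m) (t : T) :
    (grpK Φ ψ (Sum.inl i) = some none ∧ (∃ p ∈ near t, Φ (Sum.inl p.1, p.2) = i) ∧
      (instD Φ ψ near D hD1 hD3 τ H hτ hτH hH).space.dist (Sum.inl i) (Sum.inr (ψ (Sum.inl t))) = 1) ∨
    (grpK Φ ψ (Sum.inl i) = some none ∧ (¬ ∃ p ∈ near t, Φ (Sum.inl p.1, p.2) = i) ∧
      (instD Φ ψ near D hD1 hD3 τ H hτ hτH hH).space.dist (Sum.inl i) (Sum.inr (ψ (Sum.inl t))) = D) ∨
    (grpK Φ ψ (Sum.inl i) ≠ some none ∧
      (instD Φ ψ near D hD1 hD3 τ H hτ hτH hH).space.dist (Sum.inl i) (Sum.inr (ψ (Sum.inl t))) = H) := by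
  have hgj : grpK Φ ψ (Sum.inr (ψ (Sum.inl t))) = some none := grpK_C Φ ψ (Sum.inl t)
  by_cases hg : grpK Φ ψ (Sum.inl i) = some none
  · have h2 := dist_same Φ ψ near D hD1 hD3 τ H hτ hτH hH (Sum.inl i) (Sum.inr (ψ (Sum.inl t)))
      (hg.trans hgj.symm)
    rw [hg] at h2
    have hn : i ∈ nearK Φ ψ near (ψ (Sum.inl t)) ↔
        ∃ p ∈ near t, Φ (Sum.inl p.1, p.2) = i := by
      constructor
      · rintro ⟨t', ht', p, hp, hpi⟩
        have : t' = t := Sum.inl.inj (ψ.injective ht')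
        subst this
        exact ⟨p, hp, hpi⟩
      · rintro ⟨p, hp, hpi⟩
        exact ⟨t, rfl, p, hp, hpi⟩
    by_cases hi : ∃ p ∈ near t, Φ (Sum.inl p.1, p.2) = i
    · left
      refine ⟨hg, hi, h2.trans ?_⟩
      exact if_pos (hn.2 hi)
    · right; left
      refine ⟨hg, hi, h2.trans ?_⟩
      exact if_neg (fun h => hi (hn.1 h))
  · right; right
    refine ⟨hg, dist_diff Φ ψ near D hD1 hD3 τ H hτ hτH hH _ _ ?_⟩
    intro h
    exact hg (h.trans hgj)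

/-- the distance of a facility and the client of `u` -/
theorem dist_u (Φ : (V ⊕ U) × Ω ↪ Fin m) (ψ : T ⊕ U ↪ Fin M)
    (near : T → Finset (V × Ω)) (D : ℝ) (hD1 : 1 ≤ D)
    (hD3 : D ≤ 3) (τ H : ℝ) (hτ : 0 < τ) (hτH : τ ≤ H) (hH : D ≤ H)
    (i : Fin m) (u : U) :
    (grpK Φ ψ (Sum.inl i) = some (some u) ∧
      (instD Φ ψ near D hD1 hD3 τ H hτ hτH hH).space.dist (Sum.inl i) (Sum.inr (ψ (Sum.inr u))) = τ) ∨
    (grpK Φ ψ (Sum.inl i) ≠ some (some u) ∧
      (instD Φ ψ near D hD1 hD3 τ H hτ hτH hH).space.dist (Sum.inl i) (Sum.inr (ψ (Sum.inr u))) = H) := by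
  have hgj : grpK Φ ψ (Sum.inr (ψ (Sum.inr u))) = some (some u) := grpK_C Φ ψ (Sum.inr u)
  by_cases hg : grpK Φ ψ (Sum.inl i) = some (some u)
  · left
    have h2 := dist_same Φ ψ near D hD1 hD3 τ H hτ hτH hH (Sum.inl i) (Sum.inr (ψ (Sum.inr u)))
      (hg.trans hgj.symm)
    rw [hg] at h2
    refine ⟨hg, h2.trans ?_⟩
    show (if (Sum.inl i : Fin m ⊕ Fin M) = Sum.inr (ψ (Sum.inr u)) then (0 : ℝ) else τ) = τ
    exact if_neg Sum.inl_ne_inr
  · right
    refine ⟨hg, dist_diff Φ ψ near D hD1 hD3 τ H hτ hτH hH _ _ ?_⟩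
    intro h
    exact hg (h.trans hgj)

theorem bc_le (Φ : (V ⊕ U) × Ω ↪ Fin m) (ψ : T ⊕ U ↪ Fin M)
    (near : T → Finset (V × Ω)) (D : ℝ) (hD1 : 1 ≤ D)
    (hD3 : D ≤ 3) (τ H : ℝ) (hτ : 0 < τ) (hτH : τ ≤ H) (hH : D ≤ H)
    (S : Finset (Fin m)) (A : Finset (V × Ω)) (hA : ∀ p, p ∈ A ↔ Φ (Sum.inl p.1, p.2) ∈ S)
    (a : ℝ) (ha : a ≤ τ) (j : Fin M) (hj : j ∈ (Finset.univ.map ψ : Finset (Fin M)))
    (i : Fin m) (hi : i ∈ S) :
    bc ψ near A D a j ≤ (instD Φ ψ near D hD1 hD3 τ H hτ hτH hH).space.dist (Sum.inl i) (Sum.inr j) := by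
  obtain ⟨q, _, rfl⟩ := Finset.mem_map.1 hj
  rw [bc_apply]
  rcases q with t | u
  · have h3 := bd_le_D (U := U) near A D a hD1 t
    rcases dist_test Φ ψ near D hD1 hD3 τ H hτ hτH hH i t with ⟨_, ⟨p, hp, hpi⟩, hd⟩ | ⟨_, _, hd⟩ | ⟨_, hd⟩
    · rw [hd]
      have : ¬ Disjoint (near t) A := by
        rw [Finset.not_disjoint_iff]
        exact ⟨p, hp, (hA p).2 (hpi ▸ hi)⟩
      exact ((bd_inl near A D a t).2 this).le
    · rw [hd]
      exact h3
    · rw [hd]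
      exact h3.trans hH
  · show a ≤ _
    rcases dist_u Φ ψ near D hD1 hD3 τ H hτ hτH hH i u with ⟨_, hd⟩ | ⟨_, hd⟩
    · rw [hd]
      exact ha
    · rw [hd]
      exact ha.trans hτH

theorem cost_serv (Φ : (V ⊕ U) × Ω ↪ Fin m) (ψ : T ⊕ U ↪ Fin M)
    (near : T → Finset (V × Ω)) (D : ℝ) (hD1 : 1 ≤ D)
    (hD3 : D ≤ 3) (τ H : ℝ) (hτ : 0 < τ) (hτH : τ ≤ H) (hH : D ≤ H)
    (S : Finset (Fin m)) :
    (instD Φ ψ near D hD1 hD3 τ H hτ hτH hH).cost S =
      serv (instD Φ ψ near D hD1 hD3 τ H hτ hτH hH).space (Finset.univ.map ψ) S := by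
  rw [cost_eq]
  have : ∑ i ∈ S, (instD Φ ψ near D hD1 hD3 τ H hτ hτH hH).opening i = 0 :=
    Finset.sum_eq_zero fun _ _ => rfl
  rw [this, zero_add]
  rfl

end KDAux

theorem rename_instD (Φ : (V ⊕ U) × Ω ↪ Fin m) (ψ : T ⊕ U ↪ Fin M) (near : T → Finset (V × Ω))
    (D : ℝ) (hD1 : 1 ≤ D)
    (hD3 : D ≤ 3) (τ H : ℝ) (hτ : 0 < τ) (hτH : τ ≤ H) (hH : D ≤ H) (g : Equiv.Perm (Fin m))
    (h : Equiv.Perm (Fin M)) :
    (instD Φ ψ near D hD1 hD3 τ H hτ hτH hH).rename g h =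
      instD (Φ.trans g.toEmbedding) (ψ.trans h.toEmbedding) near D hD1 hD3 τ H hτ hτH hH := by
  refine inst_ext (space_ext ?_) rfl ?_
  · funext x y
    show (instD Φ ψ near D hD1 hD3 τ H hτ hτH hH).space.dist (Sum.map g.symm h.symm x)
      (Sum.map g.symm h.symm y) = _
    have hx := grpK_rename Φ ψ g h x
    have hy := grpK_rename Φ ψ g h y
    by_cases h' : grpK (Φ.trans g.toEmbedding) (ψ.trans h.toEmbedding) x =
        grpK (Φ.trans g.toEmbedding) (ψ.trans h.toEmbedding) y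
    · rw [dist_same _ _ _ _ _ _ _ _ _ _ _ x y h',
        dist_same _ _ _ _ _ _ _ _ _ _ _ _ _ (hx.trans (h'.trans hy.symm)), hx]
      exact delta_rename Φ ψ near D hD1 hD3 τ hτ g h _ x y
    · rw [dist_diff _ _ _ _ _ _ _ _ _ _ _ x y h', dist_diff]
      rw [hx, hy]
      exact h'
  · show ((Finset.univ.map ψ).map h.toEmbedding) = Finset.univ.map (ψ.trans h.toEmbedding)
    rw [Finset.map_map]

theorem exists_renameD (Φ Φ' : (V ⊕ U) × Ω ↪ Fin m) (ψ ψ' : T ⊕ U ↪ Fin M)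
    (near : T → Finset (V × Ω)) (D : ℝ) (hD1 : 1 ≤ D)
    (hD3 : D ≤ 3) (τ H : ℝ) (hτ : 0 < τ) (hτH : τ ≤ H) (hH : D ≤ H) :
    ∃ (g : Equiv.Perm (Fin m)) (h : Equiv.Perm (Fin M)),
      instD Φ' ψ' near D hD1 hD3 τ H hτ hτH hH = (instD Φ ψ near D hD1 hD3 τ H hτ hτH hH).rename g h := by
  obtain ⟨g, hg⟩ := Pool.Agent.Lib.P325av.exists_perm Φ Φ' Φ.injective Φ'.injective
  obtain ⟨h, hh⟩ := Pool.Agent.Lib.P325av.exists_perm ψ ψ' ψ.injective ψ'.injective
  refine ⟨g, h, ?_⟩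
  rw [rename_instD]
  congr 1
  · ext p
    show (Φ' p : ℕ) = g (Φ p)
    rw [hg p]
  · ext p
    show (ψ' p : ℕ) = h (ψ p)
    rw [hh p]

theorem clients_instD (Φ : (V ⊕ U) × Ω ↪ Fin m) (ψ : T ⊕ U ↪ Fin M) (near : T → Finset (V × Ω))
    (D : ℝ) (hD1 : 1 ≤ D)
    (hD3 : D ≤ 3) (τ H : ℝ) (hτ : 0 < τ) (hτH : τ ≤ H) (hH : D ≤ H) :
    (instD Φ ψ near D hD1 hD3 τ H hτ hτH hH).clients.card = Fintype.card T + Fintype.card U := by
  show (Finset.univ.map ψ).card = _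
  rw [Finset.card_map, Finset.card_univ, Fintype.card_sum]

theorem nearest_instD (Φ : (V ⊕ U) × Ω ↪ Fin m) (ψ : T ⊕ U ↪ Fin M) (near : T → Finset (V × Ω))
    (D : ℝ) (hD1 : 1 ≤ D)
    (hD3 : D ≤ 3) (τ H : ℝ) (hτ : 0 < τ) (hτH : τ ≤ H) (hH : D ≤ H) (S : Finset (Fin m)) (σ : Fin M → Fin m)
    (hσ : ∀ j, σ j ∈ S) (hU : ∀ u : U, ∃ c, Φ (Sum.inr u, c) = σ (ψ (Sum.inr u)))
    (hT : ∀ t, ∃ p : V × Ω, Φ (Sum.inl p.1, p.2) = σ (ψ (Sum.inl t)))
    (hn : ∀ t, (∃ p ∈ near t, Φ (Sum.inl p.1, p.2) ∈ S) →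
      ∃ p ∈ near t, Φ (Sum.inl p.1, p.2) = σ (ψ (Sum.inl t))) :
    (instD Φ ψ near D hD1 hD3 τ H hτ hτH hH).Nearest S σ := by
  refine ⟨hσ, ?_⟩
  intro j hj i hi
  obtain ⟨q, _, rfl⟩ := Finset.mem_map.1 (hj : j ∈ Finset.univ.map ψ)
  rcases q with t | u
  · by_cases hex : ∃ p ∈ near t, Φ (Sum.inl p.1, p.2) ∈ S
    · have hd0 : (instD Φ ψ near D hD1 hD3 τ H hτ hτH hH).space.dist (Sum.inl (σ (ψ (Sum.inl t))))
          (Sum.inr (ψ (Sum.inl t))) = 1 := by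
        have hex' := hn t hex
        rcases dist_test Φ ψ near D hD1 hD3 τ H hτ hτH hH (σ (ψ (Sum.inl t))) t with
          ⟨_, _, hd⟩ | ⟨_, hno, _⟩ | ⟨hg, _⟩
        · exact hd
        · exact absurd hex' hno
        · exfalso
          obtain ⟨p, _, hp⟩ := hex'
          refine hg ?_
          rw [← hp]
          exact grpK_F Φ ψ _
      rw [hd0]
      rcases dist_test Φ ψ near D hD1 hD3 τ H hτ hτH hH i t with
        ⟨_, _, hd⟩ | ⟨_, _, hd⟩ | ⟨_, hd⟩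
      · exact hd.ge
      · rw [hd]
        exact hD1
      · rw [hd]
        linarith
    · have hd0 : (instD Φ ψ near D hD1 hD3 τ H hτ hτH hH).space.dist (Sum.inl (σ (ψ (Sum.inl t))))
          (Sum.inr (ψ (Sum.inl t))) ≤ D := by
        rcases dist_test Φ ψ near D hD1 hD3 τ H hτ hτH hH (σ (ψ (Sum.inl t))) t with
          ⟨_, _, hd⟩ | ⟨_, hno, hd⟩ | ⟨hg, _⟩
        · rw [hd]
          exact hD1
        · exact hd.le
        · exfalso
          obtain ⟨p, hp⟩ := hT t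
          refine hg ?_
          rw [← hp]
          exact grpK_F Φ ψ _
      refine hd0.trans ?_
      rcases dist_test Φ ψ near D hD1 hD3 τ H hτ hτH hH i t with
        ⟨_, ⟨p, hp, hpi⟩, _⟩ | ⟨_, _, hd⟩ | ⟨_, hd⟩
      · exact absurd ⟨p, hp, hpi ▸ hi⟩ hex
      · exact hd.ge
      · rw [hd]
        exact hH
  · have hd0 : (instD Φ ψ near D hD1 hD3 τ H hτ hτH hH).space.dist (Sum.inl (σ (ψ (Sum.inr u))))
        (Sum.inr (ψ (Sum.inr u))) = τ := by
      rcases dist_u Φ ψ near D hD1 hD3 τ H hτ hτH hH (σ (ψ (Sum.inr u))) u with ⟨_, hd⟩ | ⟨hg, _⟩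
      · exact hd
      · exfalso
        obtain ⟨c, hc⟩ := hU u
        refine hg ?_
        rw [← hc]
        exact grpK_F Φ ψ _
    rw [hd0]
    rcases dist_u Φ ψ near D hD1 hD3 τ H hτ hτH hH i u with ⟨_, hd⟩ | ⟨_, hd⟩
    · exact hd.ge
    · rw [hd]
      exact hτH

theorem cost_instD [Fintype V] [Fintype Ω] (Φ : (V ⊕ U) × Ω ↪ Fin m)
    (ψ : T ⊕ U ↪ Fin M) (near : T → Finset (V × Ω)) (D : ℝ) (hD1 : 1 ≤ D)
    (hD3 : D ≤ 3) (τ H : ℝ) (hτ : 0 < τ) (hτH : τ ≤ H)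
    (hH : D ≤ H) (S : Finset (Fin m)) (A : Finset (V × Ω))
    (hA : ∀ p, p ∈ A ↔ Φ (Sum.inl p.1, p.2) ∈ S) (hA0 : A.Nonempty)
    (hU : ∀ u : U, ∃ c, Φ (Sum.inr u, c) ∈ S) :
    (instD Φ ψ near D hD1 hD3 τ H hτ hτH hH).cost S =
      Fintype.card T * (1 + (D - 1) * unc near A) + Fintype.card U * τ := by
  obtain ⟨p0, hp0⟩ := hA0
  have hS : S.Nonempty := ⟨_, (hA p0).1 hp0⟩
  rw [cost_serv, serv_eq (instD Φ ψ near D hD1 hD3 τ H hτ hτH hH).space (Finset.univ.map ψ) S hS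
    (bc ψ near A D τ) (bc_le Φ ψ near D hD1 hD3 τ H hτ hτH hH S A hA τ le_rfl) ?_, sum_bc]
  intro j hj
  obtain ⟨q, _, rfl⟩ := Finset.mem_map.1 hj
  rw [bc_apply]
  rcases q with t | u
  · by_cases hdis : Disjoint (near t) A
    · refine ⟨_, (hA p0).1 hp0, ?_⟩
      rw [(bd_inl near A D τ t).1 hdis]
      have hg : grpK Φ ψ (Sum.inl (Φ (Sum.inl p0.1, p0.2))) = some none := grpK_F Φ ψ _
      rcases dist_test Φ ψ near D hD1 hD3 τ H hτ hτH hH (Φ (Sum.inl p0.1, p0.2)) t with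
        ⟨_, ⟨p, hp, hpi⟩, _⟩ | ⟨_, _, hd⟩ | ⟨hg', _⟩
      · exfalso
        have h1 := Φ.injective hpi
        simp only [Prod.mk.injEq, Sum.inl.injEq] at h1
        have h2 : p = p0 := Prod.ext h1.1 h1.2
        rw [h2] at hp
        exact Finset.disjoint_left.1 hdis hp hp0
      · exact hd
      · exact absurd hg hg'
    · rw [(bd_inl near A D τ t).2 hdis]
      obtain ⟨p, hp, hpA⟩ := Finset.not_disjoint_iff.1 hdis
      refine ⟨_, (hA p).1 hpA, ?_⟩
      have hg : grpK Φ ψ (Sum.inl (Φ (Sum.inl p.1, p.2))) = some none := grpK_F Φ ψ _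
      rcases dist_test Φ ψ near D hD1 hD3 τ H hτ hτH hH (Φ (Sum.inl p.1, p.2)) t with
        ⟨_, _, hd⟩ | ⟨_, hn, _⟩ | ⟨hg', _⟩
      · exact hd
      · exact absurd ⟨p, hp, rfl⟩ hn
      · exact absurd hg hg'
  · obtain ⟨c, hc⟩ := hU u
    refine ⟨_, hc, ?_⟩
    have hg : grpK Φ ψ (Sum.inl (Φ (Sum.inr u, c))) = some (some u) := grpK_F Φ ψ _
    rcases dist_u Φ ψ near D hD1 hD3 τ H hτ hτH hH (Φ (Sum.inr u, c)) u with ⟨_, hd⟩ | ⟨hg', _⟩
    · exact hd
    · exact absurd hg hg'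

theorem lower_instD [Fintype V] [Fintype Ω] (Φ : (V ⊕ U) × Ω ↪ Fin m)
    (ψ : T ⊕ U ↪ Fin M) (near : T → Finset (V × Ω)) (D : ℝ) (hD1 : 1 ≤ D)
    (hD3 : D ≤ 3) (τ H : ℝ) (hτ : 0 < τ) (hτH : τ ≤ H)
    (hH : D ≤ H) (S : Finset (Fin m)) (hS : S.Nonempty)
    (kb : ℕ) (hSk : S.card ≤ kb) (A : Finset (V × Ω))
    (hA : ∀ p, p ∈ A ↔ Φ (Sum.inl p.1, p.2) ∈ S) :
    H ≤ (instD Φ ψ near D hD1 hD3 τ H hτ hτH hH).cost S ∨
      (A.card + Fintype.card U ≤ kb ∧ Fintype.card T * (1 + (D - 1) * unc near A) ≤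
        (instD Φ ψ near D hD1 hD3 τ H hτ hτH hH).cost S) := by
  classical
  rw [cost_serv]
  by_cases hU : ∀ u : U, ∃ c, Φ (Sum.inr u, c) ∈ S
  · right
    choose c hc using hU
    constructor
    · have h1 : (A.image (fun p => Φ (Sum.inl p.1, p.2))) ∪
          (Finset.univ.image (fun u => Φ (Sum.inr u, c u))) ⊆ S := by
        refine Finset.union_subset ?_ ?_
        · intro i hi
          obtain ⟨p, hp, rfl⟩ := Finset.mem_image.1 hi
          exact (hA p).1 hp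
        · intro i hi
          obtain ⟨u, _, rfl⟩ := Finset.mem_image.1 hi
          exact hc u
      have h2 : Disjoint (A.image (fun p => Φ (Sum.inl p.1, p.2)))
          (Finset.univ.image (fun u => Φ (Sum.inr u, c u))) := by
        rw [Finset.disjoint_left]
        intro i hi hi'
        obtain ⟨p, _, rfl⟩ := Finset.mem_image.1 hi
        obtain ⟨u, _, hu⟩ := Finset.mem_image.1 hi'
        have := Φ.injective hu
        simp at this
      have h3 := Finset.card_le_card h1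
      rw [Finset.card_union_of_disjoint h2, Finset.card_image_of_injective,
        Finset.card_image_of_injective, Finset.card_univ] at h3
      · omega
      · intro u u' h
        have := Φ.injective h
        simp only [Prod.mk.injEq, Sum.inr.injEq] at this
        exact this.1
      · intro p p' h
        have := Φ.injective h
        simp only [Prod.mk.injEq, Sum.inl.injEq] at this
        exact Prod.ext this.1 this.2
    · have h := serv_ge (instD Φ ψ near D hD1 hD3 τ H hτ hτH hH).space (Finset.univ.map ψ) S hS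
        (bc ψ near A D 0) (bc_le Φ ψ near D hD1 hD3 τ H hτ hτH hH S A hA 0 hτ.le)
      rw [sum_bc, mul_zero, add_zero] at h
      exact h
  · left
    push Not at hU
    obtain ⟨u, hu⟩ := hU
    refine serv_ge_one _ _ S hS H (ψ (Sum.inr u)) (Finset.mem_map.2 ⟨_, Finset.mem_univ _, rfl⟩) ?_
    intro i hi
    rcases dist_u Φ ψ near D hD1 hD3 τ H hτ hτH hH i u with ⟨hg, _⟩ | ⟨_, hd⟩
    · exfalso
      obtain ⟨c, hc⟩ := grpK_u Φ ψ i u hg
      exact hu c (hc ▸ hi)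
    · exact hd.ge

end Pool.Agent.Lib.P47m
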