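import Pool.Agent.Lib.P47s.KL3
import Pool.Agent.Lib.P47m.Defs
import Pool.Agent.Lib.P47m.KD

/-!
The costs of the instances `instD`, and their isolated clients.
-/

open scoped BigOperators

namespace Pool.Agent.Lib.P47m

open Pool.Agent.Lib.P47c (Inst cov unc)
open Pool.Agent.Lib.P47c Pool.Agent.Lib.P47c.KL2Aux Pool.Agent.Lib.P47s

namespace KLBAux

section
variable {V K U Ω : Type} {m M M1 Q : ℕ}
  (fac : (V × K) × Ω ↪ Fin m) (near : Fin M1 → Finset (V × Ω))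
  (sup : Fin M1 → Fin (Q + 1) → V) (cln : (Fin M1 × (Fin (Q + 1) → K)) ⊕ (V × K) ≃ Fin M)
  (z : V → K) (β : V ⊕ U ≃ V × K) (Φ : (V ⊕ U) × Ω ↪ Fin m) (ψ : Fin M1 ⊕ U ↪ Fin M)
  (hβ : ∀ v, β (Sum.inl v) = (v, z v)) (hΦ : ∀ x c, Φ (x, c) = fac (β x, c))
  (hψl : ∀ t, ψ (Sum.inl t) = cln (Sum.inl (t, fun q => z (sup t q))))
  (hψr : ∀ u, ψ (Sum.inr u) = cln (Sum.inr (β (Sum.inr u))))
  (g : Equiv.Perm (Fin m)) (h : Equiv.Perm (Fin M)) (X : V × K → Ω)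

include hβ hΦ hψl hψr in
theorem nearest_sol [Fintype V] [Fintype K] [Fintype U]
    (hsup : ∀ t, ∀ p ∈ near t, ∃ q, sup t q = p.1) (D : ℝ) (hD1 : 1 ≤ D) (hD3 : D ≤ 3)
    (τ H : ℝ) (hτ : 0 < τ) (hτH : τ ≤ H) (hH : D ≤ H) :
    (instD (Φ.trans g.toEmbedding) (ψ.trans h.toEmbedding) near D hD1 hD3 τ H hτ hτH hH).Nearest
      (sol fac g X) (asg fac near sup cln g h X) := by
  refine nearest_instD _ _ near D hD1 hD3 τ H hτ hτH hH _ _
    (fun j => asg_mem fac near sup cln g h X j) (fun u => ?_) (fun t => ?_) (fun t ht => ?_)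
  · refine ⟨X (β (Sum.inr u)), ?_⟩
    rw [KL3Aux.asg_inr fac near sup cln β ψ hψr g h X u, KL3Aux.trans_apply fac β Φ hΦ g]
  · refine ⟨(sup t (pickq (near t) (sup t) (fun q => z (sup t q)) X),
      X (sup t (pickq (near t) (sup t) (fun q => z (sup t q)) X),
        z (sup t (pickq (near t) (sup t) (fun q => z (sup t q)) X)))), ?_⟩
    rw [KL3Aux.asg_inl fac near sup cln z ψ hψl g h X t, KL3Aux.trans_apply fac β Φ hΦ g, hβ]
  · obtain ⟨p, hp, hpS⟩ := ht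
    rw [mem_sol fac g X β Φ hΦ, hβ] at hpS
    obtain ⟨q, hq⟩ := hsup t p hp
    have h1 : ∃ q, (sup t q, X (sup t q, (fun q => z (sup t q)) q)) ∈ near t := by
      refine ⟨q, ?_⟩
      dsimp only
      rw [hq, hpS]
      exact hp
    have h2 := pickq_spec (near t) (sup t) (fun q => z (sup t q)) X h1
    refine ⟨_, h2, ?_⟩
    rw [KL3Aux.asg_inl fac near sup cln z ψ hψl g h X t, KL3Aux.trans_apply fac β Φ hΦ g, hβ]

include hβ hΦ in
theorem cost_sol [Fintype V] [Fintype K] [Fintype U] [Fintype Ω] [Nonempty V]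
    [Nonempty Ω] [NeZero M1] (D : ℝ) (hD1 : 1 ≤ D) (hD3 : D ≤ 3) (τ H : ℝ) (hτ : 0 < τ)
    (hτH : τ ≤ H) (hH : D ≤ H) (ψ' : Fin M1 ⊕ U ↪ Fin M) :
    (instD (Φ.trans g.toEmbedding) ψ' near D hD1 hD3 τ H hτ hτH hH).cost (sol fac g X) =
      (M1 : ℝ) * (D - (D - 1) * cov near (fun v => X (v, z v))) + Fintype.card U * τ := by
  classical
  let A : Finset (V × Ω) := Finset.univ.filter (fun p => X (p.1, z p.1) = p.2)
  have hA : ∀ p, p ∈ A ↔ (Φ.trans g.toEmbedding) (Sum.inl p.1, p.2) ∈ sol fac g X := by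
    intro p
    rw [mem_sol fac g X β Φ hΦ, hβ]
    simp [A]
  have hA0 : A.Nonempty := by
    obtain ⟨v⟩ := (inferInstance : Nonempty V)
    exact ⟨(v, X (v, z v)), by simp [A]⟩
  have hU : ∀ u : U, ∃ c, (Φ.trans g.toEmbedding) (Sum.inr u, c) ∈ sol fac g X := by
    intro u
    exact ⟨X (β (Sum.inr u)), (mem_sol fac g X β Φ hΦ _ _).2 rfl⟩
  rw [cost_instD (Φ.trans g.toEmbedding) ψ' near D hD1 hD3 τ H hτ hτH hH (sol fac g X) A hA hA0 hU]
  have : Nonempty (Fin M1) := ⟨0⟩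
  rw [unc_graph near (fun v => X (v, z v)) A (by intro p; simp [A])]
  rw [Fintype.card_fin]
  ring

end

/-- The lower bound for the minimum. -/
theorem opt_ge {V U Ω : Type} [Fintype V] [Fintype U] [Fintype Ω] [Nonempty V]
    [Nonempty Ω] {m M M1 : ℕ}
    (Φ : (V ⊕ U) × Ω ↪ Fin m) (ψ : Fin M1 ⊕ U ↪ Fin M)
    (near : Fin M1 → Finset (V × Ω)) (D : ℝ) (hD1 : 1 ≤ D) (hD3 : D ≤ 3) (τ H : ℝ) (hτ : 0 < τ)
    (hτH : τ ≤ H) (hH : D ≤ H) (hH1 : D * (M1 : ℝ) ≤ H) (ε a : ℝ) (hε : 0 < ε) (ha : 0 ≤ a)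
    (hunc : ∀ A : Finset (V × Ω),
        Real.exp (-((A.card : ℝ) / Fintype.card V)) - ε ≤ unc near A)
    (kk : ℕ) (hkk : (kk : ℝ) ≤ Fintype.card U + a * Fintype.card V)
    (hne : Nonempty {S : Finset (Fin m) // S.Nonempty ∧ S.card ≤ kk}) :
    (M1 : ℝ) * (1 + (D - 1) * (Real.exp (-a) - ε)) ≤
      (instD Φ ψ near D hD1 hD3 τ H hτ hτH hH).opt (fun S => S.Nonempty ∧ S.card ≤ kk) := by
  classical
  unfold Inst.opt
  refine le_ciInf ?_
  rintro ⟨S, hS0, hSk⟩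
  have hM0 : (0 : ℝ) ≤ M1 := Nat.cast_nonneg M1
  have hexp : Real.exp (-a) ≤ 1 := by
    rw [← Real.exp_zero]
    exact Real.exp_le_exp.2 (by linarith)
  rcases lower_instD Φ ψ near D hD1 hD3 τ H hτ hτH hH S hS0 kk hSk
    (Finset.univ.filter (fun p : V × Ω => Φ (Sum.inl p.1, p.2) ∈ S)) (by intro p; simp)
    with h | ⟨h1, h2⟩
  · refine le_trans ?_ h
    refine le_trans ?_ hH1
    have h0 : (D - 1) * (Real.exp (-a) - ε) ≤ (D - 1) * 1 :=
      mul_le_mul_of_nonneg_left (by linarith) (by linarith)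
    have : 1 + (D - 1) * (Real.exp (-a) - ε) ≤ D := by linarith
    nlinarith
  · refine le_trans ?_ h2
    rw [Fintype.card_fin]
    apply mul_le_mul_of_nonneg_left _ hM0
    have h3 := hunc (Finset.univ.filter (fun p : V × Ω => Φ (Sum.inl p.1, p.2) ∈ S))
    have hV : (0 : ℝ) < Fintype.card V := by exact_mod_cast Fintype.card_pos
    have h4 : Real.exp (-a) ≤ Real.exp (-(((Finset.univ.filter (fun p : V × Ω =>
        Φ (Sum.inl p.1, p.2) ∈ S)).card : ℝ) / Fintype.card V)) := by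
      apply Real.exp_le_exp.2
      apply neg_le_neg
      rw [div_le_iff₀ hV]
      have h5 : ((Finset.univ.filter (fun p : V × Ω => Φ (Sum.inl p.1, p.2) ∈ S)).card : ℝ) +
          Fintype.card U ≤ kk := by exact_mod_cast h1
      linarith
    have h6 : (D - 1) * (Real.exp (-a) - ε) ≤
        (D - 1) * unc near (Finset.univ.filter (fun p : V × Ω => Φ (Sum.inl p.1, p.2) ∈ S)) :=
      mul_le_mul_of_nonneg_left (by linarith) (by linarith)
    linarith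

theorem grpK_main {V U Ω T : Type} {m M : ℕ} (Φ : (V ⊕ U) × Ω ↪ Fin m) (ψ : T ⊕ U ↪ Fin M)
    (i : Fin m) (h : grpK Φ ψ (Sum.inl i) = some none) : ∃ v c, Φ (Sum.inl v, c) = i := by
  by_cases hp : ∃ p, Φ p = i
  · obtain ⟨⟨x, c⟩, rfl⟩ := hp
    rw [KIAux.grpK_F] at h
    rcases x with v | u'
    · exact ⟨v, c, rfl⟩
    · exact absurd h (by simp)
  · rw [KIAux.grpK_none Φ ψ i hp] at h
    exact absurd h (by simp)

/-- The isolated clients of `instD`. -/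
theorem isolated_instD {V Ω : Type} {u : ℕ} [Fintype V] [Fintype Ω] [Nonempty V]
    [Nonempty Ω] {m M M1 : ℕ}
    (Φ : (V ⊕ Fin u) × Ω ↪ Fin m) (ψ : Fin M1 ⊕ Fin u ↪ Fin M)
    (near : Fin M1 → Finset (V × Ω)) (D : ℝ) (hD1 : 1 ≤ D) (hD3 : D ≤ 3) (τ H : ℝ) (hτ : 0 < τ)
    (hτH : τ ≤ H) (hH : D ≤ H) (hτ1 : τ ≤ 1) (hH1 : D * ((M1 : ℝ) + u) + 1 ≤ H) :
    Isolated D u (instD Φ ψ near D hD1 hD3 τ H hτ hτH hH) := by
  classical
  have hcl : (instD Φ ψ near D hD1 hD3 τ H hτ hτH hH).clients = Finset.univ.map ψ := rfl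
  have hcard : ((instD Φ ψ near D hD1 hD3 τ H hτ hτH hH).clients.card : ℝ) = (M1 : ℝ) + u := by
    rw [clients_instD, Fintype.card_fin, Fintype.card_fin]
    push_cast
    rfl
  refine ⟨fun _ => rfl, Finset.univ.image (fun p : V × Ω => Φ (Sum.inl p.1, p.2)),
    ⟨fun r => ψ (Sum.inr r), fun r r' hr => Sum.inr_injective (ψ.injective hr)⟩,
    fun r => Finset.univ.image (fun c : Ω => Φ (Sum.inr r, c)), ?_, fun r => ⟨?_, ?_, ?_⟩,
    fun r r' hr => ?_, fun r i => ⟨fun hi => ?_, fun hi => ?_⟩, fun j hj hjr i => ⟨fun hi => ?_,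
    fun hi => ?_⟩⟩
  · exact Finset.univ_nonempty.image _
  · rw [hcl]
    exact Finset.mem_map.2 ⟨_, Finset.mem_univ _, rfl⟩
  · exact Finset.univ_nonempty.image _
  · rw [Finset.disjoint_left]
    intro i hi hi'
    obtain ⟨p, _, rfl⟩ := Finset.mem_image.1 hi
    obtain ⟨c, _, hc⟩ := Finset.mem_image.1 hi'
    have := Φ.injective hc
    simp at this
  · rw [Finset.disjoint_left]
    intro i hi hi'
    obtain ⟨c, _, rfl⟩ := Finset.mem_image.1 hi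
    obtain ⟨c', _, hc⟩ := Finset.mem_image.1 hi'
    have := Φ.injective hc
    simp only [Prod.mk.injEq, Sum.inr.injEq] at this
    exact hr this.1.symm
  · obtain ⟨c, _, rfl⟩ := Finset.mem_image.1 hi
    have hg : grpK Φ ψ (Sum.inl (Φ (Sum.inr r, c))) = some (some r) := KIAux.grpK_F Φ ψ _
    rcases KDAux.dist_u Φ ψ near D hD1 hD3 τ H hτ hτH hH (Φ (Sum.inr r, c)) r with
      ⟨_, hd⟩ | ⟨hg', _⟩
    · exact hd.le.trans hτ1
    · exact absurd hg hg'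
  · rw [hcard]
    rcases KDAux.dist_u Φ ψ near D hD1 hD3 τ H hτ hτH hH i r with ⟨hg, _⟩ | ⟨_, hd⟩
    · obtain ⟨c, hc⟩ := KIAux.grpK_u Φ ψ i r hg
      exact absurd (Finset.mem_image.2 ⟨c, Finset.mem_univ _, hc⟩) hi
    · exact hH1.trans hd.ge
  · rw [hcl] at hj
    obtain ⟨q, _, rfl⟩ := Finset.mem_map.1 hj
    rcases q with t | r
    · obtain ⟨p, _, rfl⟩ := Finset.mem_image.1 hi
      have hg : grpK Φ ψ (Sum.inl (Φ (Sum.inl p.1, p.2))) = some none := KIAux.grpK_F Φ ψ _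
      rcases KDAux.dist_test Φ ψ near D hD1 hD3 τ H hτ hτH hH (Φ (Sum.inl p.1, p.2)) t with
        ⟨_, _, hd⟩ | ⟨_, _, hd⟩ | ⟨hg', _⟩
      · exact Or.inl hd
      · exact Or.inr hd
      · exact absurd hg hg'
    · exact absurd rfl (hjr r)
  · rw [hcl] at hj
    obtain ⟨q, _, rfl⟩ := Finset.mem_map.1 hj
    rcases q with t | r
    · rcases KDAux.dist_test Φ ψ near D hD1 hD3 τ H hτ hτH hH i t with
        ⟨hg, _, _⟩ | ⟨hg, _, _⟩ | ⟨_, hd⟩
      · obtain ⟨v, c, hc⟩ := grpK_main Φ ψ i hg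
        exact absurd (Finset.mem_image.2 ⟨(v, c), Finset.mem_univ _, hc⟩) hi
      · obtain ⟨v, c, hc⟩ := grpK_main Φ ψ i hg
        exact absurd (Finset.mem_image.2 ⟨(v, c), Finset.mem_univ _, hc⟩) hi
      · exact hH.trans hd.ge
    · exact absurd rfl (hjr r)

end KLBAux

end Pool.Agent.Lib.P47m
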