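import Pool.Agent.Lib.P47s.KL3
import Pool.Agent.Lib.P47m.Defs
import Pool.Agent.Lib.P47m.KD
import Pool.Agent.Lib.P47m.KLA
import Pool.Agent.Lib.P47m.BaseQ

/-!
The lower bound for k-median with the distances 1 and `D` and isolated clients, for an optimum with
another number of centres.
-/

open scoped BigOperators

namespace Pool.Agent.Lib.P47m

open Pool.Agent.Lib.P47c (Inst cov unc)
open Pool.Agent.Lib.P47c Pool.Agent.Lib.P47c.KL2Aux Pool.Agent.Lib.P47s KLBAux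

theorem kLowD (D a b : ℝ) (hD : 1 < D) (hD3 : D ≤ 3) (ha : 0 ≤ a) (hb1 : 1 ≤ b)
    (hb : b < 1 + (D - 1) * Real.exp (-a)) :
    ∃ Q : ℕ, ∀ K0 : ℕ, ∃ m0 : ℕ, ∀ m ≥ m0, ∃ (M u k : ℕ) (I : Inst m M), M ≤ m ^ Q ∧
      u < k ∧ u + K0 ≤ k ∧ k ≤ m ∧ I.clients.card ≤ m ∧ Isolated D u I ∧
      ∀ K : ℕ, 1 ≤ K → (K : ℝ) ≤ u + a * ((k : ℝ) - u) →
      ∀ (Y : Type) [AddCommGroup Y] [Module ℝ Y] (R d t : ℕ)
        (A : Fin R → Y →ₗ[ℝ] (Fin d → ℝ)) (C : Fin R → Set (Fin d → ℝ))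
        (pt : Finset (Fin m) → (Fin M → Fin m) → Y),
        (R : ℝ) ≤ Real.exp ((m : ℝ) ^ (1 / 72 : ℝ)) → (d : ℝ) ≤ (m : ℝ) ^ (1 / 72 : ℝ) →
        (t : ℝ) ≤ (m : ℝ) ^ (1 / 72 : ℝ) → (∀ i, Convex ℝ (C i)) →
        (∀ S σ, S.Nonempty → S.card ≤ k → (∀ j, σ j ∈ S) → ∀ i, A i (pt S σ) ∈ C i) →
        (Nat.card {g : Equiv.Perm (Fin m) × Equiv.Perm (Fin M) //
          ApproxCentres (I.rename g.1 g.2) ({y | ∀ i, A i y ∈ C i} ∩ SosK pt k t) pt k K b} : ℝ) ≤
          Real.exp (-(m : ℝ) ^ (1 / 72 : ℝ)) * (m.factorial * M.factorial) := by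
  classical
  have hb0 : 0 < b := by linarith
  have hD0 : 0 < D - 1 := by linarith
  obtain ⟨f, hf⟩ : ∃ f : ℝ, f = (D - 1) * Real.exp (-a) := ⟨_, rfl⟩
  have hexp1 : Real.exp (-a) ≤ 1 := by
    rw [← Real.exp_zero]
    exact Real.exp_le_exp.2 (by linarith)
  have hfD : f ≤ D - 1 := by
    rw [hf]
    nlinarith
  rw [← hf] at hb
  obtain ⟨κ, hκ⟩ : ∃ κ : ℝ, κ = (1 + f) / b - 1 := ⟨_, rfl⟩
  have hκb : b * (1 + κ) = 1 + f := by
    rw [hκ]
    field_simp
    ring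
  have hκ0 : 0 < κ := by
    rw [hκ, sub_pos, one_lt_div hb0]
    exact hb
  have hκ1 : κ ≤ D - 1 := by nlinarith
  obtain ⟨s, hs⟩ : ∃ s : ℝ, s = 1 - κ / (2 * (D - 1)) := ⟨_, rfl⟩
  have hκD : κ / (2 * (D - 1)) ≤ 1 / 2 := by
    rw [div_le_iff₀ (by linarith)]
    linarith
  have hκD0 : 0 < κ / (2 * (D - 1)) := by positivity
  have hs0 : 0 < s := by linarith
  have hs1 : s < 1 := by linarith
  have hsq : Real.sqrt s < 1 := by
    rw [Real.sqrt_lt' one_pos]
    linarith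
  obtain ⟨ε, hε⟩ : ∃ ε : ℝ, ε = κ / (4 * (D - 1)) := ⟨_, rfl⟩
  have hε0 : 0 < ε := by
    rw [hε]
    positivity
  have hεD : (D - 1) * ε = κ / 4 := by
    rw [hε]
    field_simp
  obtain ⟨Ω, iΩ, dΩ, nΩ, Q, C0, n0, hk2, hC1, hbase⟩ := baseQ ε hε0
  refine ⟨Q + 3, fun K0 => ?_⟩
  obtain ⟨m0, hlift⟩ := liftJ Ω C0 Q (Q + 1) (max n0 K0) hC1 s 1 hs0 hs1 hsq
  refine ⟨m0, fun m hm => ?_⟩
  obtain ⟨n, hnK, hn1, hnm, hcert⟩ := hlift m hm
  have hn0 : n0 ≤ n := (le_max_left _ _).trans hnK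
  have hK0 : K0 ≤ n := (le_max_right _ _).trans hnK
  obtain ⟨V, iV, M1, near, r, E, hVne, hM0, hM1, hVn', hVc, hQ, hr, hE, hcov, hunc⟩ :=
    hbase n hn0
  have hMz : NeZero M1 := ⟨by omega⟩
  have hVpos : 0 < Fintype.card V := Fintype.card_pos
  have hn5 : 1 ≤ n ^ 5 := Nat.one_le_pow _ _ hn1
  have hle : Fintype.card V ≤ Fintype.card V * n ^ 5 := Nat.le_mul_of_pos_right _ hn5
  obtain ⟨cU, hcU⟩ : ∃ cU : ℕ, cU = Fintype.card V * n ^ 5 - Fintype.card V := ⟨_, rfl⟩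
  have hcU' : Fintype.card V + cU = Fintype.card V * n ^ 5 := by omega
  have hcardU : Fintype.card V + Fintype.card (Fin cU) = Fintype.card (V × Fin (n ^ 5)) := by
    rw [Fintype.card_fin, Fintype.card_prod, Fintype.card_fin, hcU']
  have hVn : Fintype.card V * n ^ 5 ≤ C0 * n * n ^ 5 := Nat.mul_le_mul_right _ hVc
  have hCn : C0 * n ≤ C0 * n * n ^ 5 := Nat.le_mul_of_pos_right _ hn5
  have h2k : 2 * (C0 * n * n ^ 5) ≤ C0 * n * n ^ 5 * Fintype.card Ω := by
    rw [mul_comm 2]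
    exact Nat.mul_le_mul_left _ hk2
  have hMm : M1 + cU ≤ m := by omega
  have hM1m : M1 ≤ m := by omega
  have hkm : Fintype.card V * n ^ 5 ≤ m := by omega
  have hk1 : 1 ≤ Fintype.card V * n ^ 5 := by omega
  have hm2 : 2 ≤ m := by omega
  have hn5m : n ^ 5 ≤ m := le_trans (Nat.le_mul_of_pos_left _ hVpos) hkm
  have hfac : Nonempty ((V × Fin (n ^ 5)) × Ω ↪ Fin m) := by
    apply Function.Embedding.nonempty_of_card_le
    rw [Fintype.card_prod, Fintype.card_prod, Fintype.card_fin, Fintype.card_fin]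
    exact le_trans (Nat.mul_le_mul_right _ hVn) hnm
  obtain ⟨fac⟩ := hfac
  have hsupE : ∀ t : Fin M1, ∃ f : Fin (Q + 1) → V, ∀ p ∈ near t, ∃ q, f q = p.1 := by
    intro t
    obtain ⟨f, hf⟩ := exists_sup ((near t).image Prod.fst) Q
      (Finset.card_image_le.trans (hQ t))
    exact ⟨f, fun p hp => hf p.1 (Finset.mem_image_of_mem _ hp)⟩
  choose sup hsup using hsupE
  obtain ⟨M, hMdef⟩ : ∃ M, M = Fintype.card ((Fin M1 × (Fin (Q + 1) → Fin (n ^ 5))) ⊕
    (V × Fin (n ^ 5))) := ⟨_, rfl⟩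
  have cln : (Fin M1 × (Fin (Q + 1) → Fin (n ^ 5))) ⊕ (V × Fin (n ^ 5)) ≃ Fin M :=
    Fintype.equivFinOfCardEq hMdef.symm
  have hMle : M ≤ m ^ (Q + 3) := by
    rw [hMdef, Fintype.card_sum, Fintype.card_prod, Fintype.card_prod, Fintype.card_fin,
      Fintype.card_fun, Fintype.card_fin, Fintype.card_fin]
    have g1 : M1 * (n ^ 5) ^ (Q + 1) ≤ m ^ (Q + 2) := by
      rw [pow_succ m (Q + 1), mul_comm (m ^ (Q + 1))]
      exact Nat.mul_le_mul hM1m (Nat.pow_le_pow_left hn5m _)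
    have g2 : m ≤ m ^ (Q + 2) := Nat.le_self_pow (by omega) m
    have g3 : 2 * m ^ (Q + 2) ≤ m ^ (Q + 3) := by
      rw [pow_succ m (Q + 2), mul_comm]
      exact Nat.mul_le_mul_left _ hm2
    omega
  choose β Φ ψ hβ hΦ hψl hψr using fun z : V → Fin (n ^ 5) =>
    KL3Aux.exists_Phi (U := Fin cU) fac sup cln hcardU z
  let z0 : V → Fin (n ^ 5) := fun _ => ⟨0, hn5⟩
  have hM1r : (0 : ℝ) < M1 := by exact_mod_cast hM0
  have hcU0 : (0 : ℝ) ≤ cU := Nat.cast_nonneg cU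
  have hVr : (0 : ℝ) < Fintype.card V := by exact_mod_cast hVpos
  obtain ⟨τ, hτe⟩ : ∃ τ : ℝ, τ = (κ / 4 * M1) / (cU + 1 + κ / 4 * M1) := ⟨_, rfl⟩
  have hden : 0 < (cU : ℝ) + 1 + κ / 4 * M1 := by positivity
  have hτ : 0 < τ := by
    rw [hτe]
    positivity
  have hτ1 : τ ≤ 1 := by
    rw [hτe, div_le_one hden]
    linarith
  have hτ2 : cU * τ ≤ κ / 4 * M1 := by
    have h1 : (cU + 1 + κ / 4 * M1) * τ = κ / 4 * M1 := by
      rw [hτe]
      field_simp
    have h2 : 0 ≤ κ / 4 * M1 * τ := by positivity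
    nlinarith
  obtain ⟨H, hHe⟩ : ∃ H : ℝ, H = D * ((M1 : ℝ) + cU) + D := ⟨_, rfl⟩
  have hDcU : 0 ≤ D * (cU : ℝ) := mul_nonneg (by linarith) hcU0
  have hDM1 : 0 < D * (M1 : ℝ) := mul_pos (by linarith) hM1r
  have hH : D ≤ H := by
    rw [hHe]
    linarith
  have hτH : τ ≤ H := by linarith
  have hH1 : D * (M1 : ℝ) ≤ H := by
    rw [hHe]
    linarith
  have hHI : D * ((M1 : ℝ) + cU) + 1 ≤ H := by
    rw [hHe]
    linarith
  have huk : cU < Fintype.card V * n ^ 5 := by omega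
  refine ⟨M, cU, Fintype.card V * n ^ 5, instD (Φ z0) (ψ z0) near D hD.le hD3 τ H hτ hτH hH, hMle,
    huk, by omega, hkm, ?_, isolated_instD (Φ z0) (ψ z0) near D hD.le hD3 τ H hτ hτH hH hτ1 hHI,
    ?_⟩
  · rw [clients_instD, Fintype.card_fin, Fintype.card_fin]
    exact hMm
  intro K hK1 hKa Y _ _ R d t A C pt hR hd ht hconv hpt
  have hGc : (Fintype.card (Equiv.Perm (Fin m) × Equiv.Perm (Fin M)) : ℝ) =
      (m.factorial : ℝ) * (M.factorial : ℝ) := by
    rw [Fintype.card_prod, Fintype.card_perm, Fintype.card_perm, Fintype.card_fin,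
      Fintype.card_fin]
    push_cast
    rfl
  have hKV : (K : ℝ) ≤ Fintype.card (Fin cU) + a * Fintype.card V := by
    rw [Fintype.card_fin]
    have h1 : ((Fintype.card V * n ^ 5 : ℕ) : ℝ) - cU = Fintype.card V := by
      rw [← hcU']
      push_cast
      ring
    rw [h1] at hKa
    exact hKa
  have hP : ∀ z : V → Fin (n ^ 5), ∃ h : Equiv.Perm (Fin m) × Equiv.Perm (Fin M),
      ∀ g : Equiv.Perm (Fin m) × Equiv.Perm (Fin M),
      (ApproxCentres ((instD (Φ z) (ψ z) near D hD.le hD3 τ H hτ hτH hH).rename g.1 g.2)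
        ({y | ∀ j, A j y ∈ C j} ∩ SosK pt (Fintype.card V * n ^ 5) t) pt
        (Fintype.card V * n ^ 5) K b) ↔
      (ApproxCentres ((instD (Φ z0) (ψ z0) near D hD.le hD3 τ H hτ hτH hH).rename
        (g * h).1 (g * h).2)
        ({y | ∀ j, A j y ∈ C j} ∩ SosK pt (Fintype.card V * n ^ 5) t) pt
        (Fintype.card V * n ^ 5) K b) := by
    intro z
    obtain ⟨h, h', hh⟩ := exists_renameD (Φ z0) (Φ z) (ψ z0) (ψ z) near D hD.le hD3 τ H hτ hτH hH
    refine ⟨(h, h'), fun g => ?_⟩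
    rw [hh, rename_rename]
    rfl
  have hmain : ∀ g : Equiv.Perm (Fin m) × Equiv.Perm (Fin M),
      (Nat.card {z : V → Fin (n ^ 5) //
      ApproxCentres ((instD (Φ z) (ψ z) near D hD.le hD3 τ H hτ hτH hH).rename g.1 g.2)
        ({y | ∀ j, A j y ∈ C j} ∩ SosK pt (Fintype.card V * n ^ 5) t) pt
        (Fintype.card V * n ^ 5) K b} : ℝ) ≤
      Real.exp (-(m : ℝ) ^ (1 / 72 : ℝ)) * Fintype.card (V → Fin (n ^ 5)) := by
    intro g
    have : Nonempty (V × Fin (n ^ 5)) := by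
      obtain ⟨v⟩ := hVne
      exact ⟨(v, ⟨0, hn5⟩)⟩
    have hSc : ∀ X : V × Fin (n ^ 5) → Ω,
        (sol fac g.1 X).card ≤ Fintype.card V * n ^ 5 := by
      intro X
      refine le_trans (sol_card fac g.1 X) ?_
      rw [Fintype.card_prod, Fintype.card_fin]
    have hcn : ∀ y, 0 ≤ cov near y := by
      intro y
      unfold cov
      apply Pool.Agent.Lib.P325P.mean_nonneg
      intro j
      split_ifs <;> norm_num
    have h1 := hcert V hVc (cov near) hcn
      (fun T hT y => es_cov near Q hQ T hT y) r E hE hr hcov Y R d t A C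
      (fun X => pt (sol fac g.1 X) (asg fac near sup cln g.1 g.2 X)) hR hd ht
      hconv (fun X j => hpt _ _ (sol_nonempty fac g.1 X) (hSc X)
        (fun i => asg_mem fac near sup cln g.1 g.2 X i) j)
    refine le_trans ?_ h1
    have hsub : SosSet (Jun (V × Fin (n ^ 5)) Ω (t * (Q + 1)))
        (fun X => pt (sol fac g.1 X) (asg fac near sup cln g.1 g.2 X)) ⊆
        SosK pt (Fintype.card V * n ^ 5) t := by
      refine sosK_sub (fun X => (sol fac g.1 X, asg fac near sup cln g.1 g.2 X))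
        (Jun (V × Fin (n ^ 5)) Ω (t * (Q + 1))) t (Fintype.card V * n ^ 5) ?_
        (fun X => sol_nonempty fac g.1 X) (fun X => ?_)
        (fun X j => asg_mem fac near sup cln g.1 g.2 X j) pt
      · intro f hf
        exact poly_comp (fun X => (sol fac g.1 X, asg fac near sup cln g.1 g.2 X)) (Q + 1) t
          (fun i => KL3Aux.sol_dep fac g.1 (Q + 1) (by omega) i)
          (fun j => KL3Aux.asg_dep fac near sup cln g.1 g.2 j) hf
      · show (sol fac g.1 X).card = _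
        rw [KL3Aux.sol_card_eq, Fintype.card_prod, Fintype.card_fin]
    have h2 : ∀ z : V → Fin (n ^ 5),
        ApproxCentres ((instD (Φ z) (ψ z) near D hD.le hD3 τ H hτ hτH hH).rename g.1 g.2)
        ({y | ∀ j, A j y ∈ C j} ∩ SosK pt (Fintype.card V * n ^ 5) t) pt
        (Fintype.card V * n ^ 5) K b →
        Cert ({y | ∀ j, A j y ∈ C j} ∩ SosSet (Jun (V × Fin (n ^ 5)) Ω (t * (Q + 1)))
          (fun X => pt (sol fac g.1 X) (asg fac near sup cln g.1 g.2 X)))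
          (fun X => pt (sol fac g.1 X) (asg fac near sup cln g.1 g.2 X))
          (fun X => cov near (fun i => X (i, z i))) s := by
      rintro z ⟨w, w0, hw, hopt⟩
      rw [rename_instD] at hw hopt
      have hserv : ∀ X : V × Fin (n ^ 5) → Ω,
          w (pt (sol fac g.1 X) (asg fac near sup cln g.1 g.2 X)) + w0 =
          (M1 : ℝ) * (D - (D - 1) * cov near (fun v => X (v, z v))) + cU * τ := by
        intro X
        rw [hw (sol fac g.1 X) (asg fac near sup cln g.1 g.2 X) (sol_nonempty fac g.1 X) (hSc X)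
          (nearest_sol fac near sup cln z (β z) (Φ z) (ψ z) (hβ z) (hΦ z) (hψl z) (hψr z) g.1 g.2 X
            hsup D hD.le hD3 τ H hτ hτH hH),
          cost_sol fac near z (β z) (Φ z) (hβ z) (hΦ z) g.1 X D hD.le hD3 τ H hτ hτH hH,
          Fintype.card_fin]
      have hne : Nonempty {S : Finset (Fin m) // S.Nonempty ∧ S.card ≤ K} := by
        obtain ⟨i, _⟩ := sol_nonempty fac g.1 (fun _ => Classical.arbitrary Ω)
        exact ⟨⟨{i}, Finset.singleton_nonempty i, by rw [Finset.card_singleton]; exact hK1⟩⟩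
      have hmed : (M1 : ℝ) * (1 + (D - 1) * (Real.exp (-a) - ε)) ≤
          (instD ((Φ z).trans g.1.toEmbedding) ((ψ z).trans g.2.toEmbedding) near D hD.le hD3 τ H
            hτ hτH hH).opt (fun S => S.Nonempty ∧ S.card ≤ K) :=
        opt_ge ((Φ z).trans g.1.toEmbedding) ((ψ z).trans g.2.toEmbedding) near D hD.le hD3 τ H
          hτ hτH hH hH1 ε a hε0 ha hunc K hKV hne
      have hlow : ∀ y ∈ ({y | ∀ j, A j y ∈ C j} ∩ SosSet (Jun (V × Fin (n ^ 5)) Ω (t * (Q + 1)))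
          (fun X => pt (sol fac g.1 X) (asg fac near sup cln g.1 g.2 X))),
          (M1 : ℝ) * (1 + 3 / 4 * κ) ≤ w y + w0 := by
        intro y hy
        refine le_trans ?_ (hopt y ⟨hy.1, hsub hy.2⟩)
        rw [le_div_iff₀ hb0]
        refine le_trans ?_ hmed
        rw [mul_assoc]
        apply mul_le_mul_of_nonneg_left _ hM1r.le
        have h3 : 1 + (D - 1) * (Real.exp (-a) - ε) = b * (1 + κ) - κ / 4 := by
          rw [hκb, hf, ← hεD]
          ring
        rw [h3]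
        nlinarith
      refine ⟨(-(1 / ((D - 1) * (M1 : ℝ)))) • w, (D + cU * τ / M1 - w0 / M1) / (D - 1), ?_, ?_⟩
      · intro X
        have h3 := hserv X
        have h4 : w (pt (sol fac g.1 X) (asg fac near sup cln g.1 g.2 X)) =
          (M1 : ℝ) * (D - (D - 1) * cov near (fun v => X (v, z v))) + cU * τ - w0 := by linarith
        rw [LinearMap.smul_apply, smul_eq_mul, h4]
        field_simp
        ring
      · intro y hy
        have h3 := hlow y hy
        rw [LinearMap.smul_apply, smul_eq_mul, hs]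
        have h5 : -(1 / ((D - 1) * (M1 : ℝ))) * w y + (D + cU * τ / M1 - w0 / M1) / (D - 1) =
            (D * M1 + cU * τ - (w y + w0)) / ((D - 1) * M1) := by
          field_simp
          ring
        have h6 : 1 - κ / (2 * (D - 1)) = ((D - 1) * M1 - κ / 2 * M1) / ((D - 1) * M1) := by
          field_simp
        rw [h5, h6]
        apply div_le_div_of_nonneg_right _ (by positivity)
        linarith
    have h3 : Nat.card {z : V → Fin (n ^ 5) //
        ApproxCentres ((instD (Φ z) (ψ z) near D hD.le hD3 τ H hτ hτH hH).rename g.1 g.2)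
        ({y | ∀ j, A j y ∈ C j} ∩ SosK pt (Fintype.card V * n ^ 5) t) pt
        (Fintype.card V * n ^ 5) K b} ≤
        Nat.card {z : V → Fin (n ^ 5) // Cert ({y | ∀ j, A j y ∈ C j} ∩
            SosSet (Jun (V × Fin (n ^ 5)) Ω (t * (Q + 1)))
          (fun X => pt (sol fac g.1 X) (asg fac near sup cln g.1 g.2 X)))
          (fun X => pt (sol fac g.1 X) (asg fac near sup cln g.1 g.2 X))
          (fun X => cov near (fun i => X (i, z i))) s} := by
      apply Nat.card_le_card_of_injective (fun z => ⟨z.1, h2 z.1 z.2⟩)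
      intro z z' h
      exact Subtype.ext (congrArg (fun u => u.1) h)
    exact_mod_cast h3
  have hZne : Nonempty (V → Fin (n ^ 5)) := ⟨z0⟩
  have key := Pool.Agent.Lib.P325av.dbl (G := Equiv.Perm (Fin m) × Equiv.Perm (Fin M))
    (Zt := V → Fin (n ^ 5)) _
    (fun g => ApproxCentres ((instD (Φ z0) (ψ z0) near D hD.le hD3 τ H hτ hτH hH).rename g.1 g.2)
        ({y | ∀ j, A j y ∈ C j} ∩ SosK pt (Fintype.card V * n ^ 5) t) pt
        (Fintype.card V * n ^ 5) K b) hP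
    (Real.exp (-(m : ℝ) ^ (1 / 72 : ℝ))) hmain
  rw [hGc] at key
  exact key

end Pool.Agent.Lib.P47m
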