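import Pool.Agent.Lib.P47c.FU

/-!
Choosing `p` facilities of a set at random.
-/

open scoped BigOperators

namespace Pool.Agent.Lib.P47m

open Pool.Agent.Lib.P47c.FUAux (exists_le_avg ind_insert_le)

theorem pickK {m : ℕ} {J : Type} [Fintype J] (F : Finset (Fin m)) (q : Fin m → ℝ)
    (hq : ∀ i, 0 ≤ q i) (hq1 : ∑ i ∈ F, q i ≤ 1) (N : J → Finset (Fin m)) (hN : ∀ j, N j ⊆ F)
    (p : ℕ) (wt : J → ℝ) (hw : ∀ j, 0 ≤ wt j) :
    ∃ S : Finset (Fin m), S ⊆ F ∧ S.card ≤ p ∧
      ∑ j, (if Disjoint S (N j) then wt j else 0) ≤ ∑ j, wt j * (1 - ∑ i ∈ N j, q i) ^ p := by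
  induction p generalizing wt with
  | zero =>
    refine ⟨∅, Finset.empty_subset _, le_rfl, ?_⟩
    simp
  | succ p ih =>
    have hwi : ∀ (i : Fin m) (j : J), 0 ≤ (if i ∈ N j then (0 : ℝ) else wt j) := by
      intro i j
      split_ifs
      · exact le_rfl
      · exact hw j
    choose S hSF hSc hS using fun i : Fin m => ih (fun j => if i ∈ N j then 0 else wt j) (hwi i)
    obtain ⟨S0, hSF0, hSc0, hS0⟩ := ih wt hw
    set Q : J → ℝ := fun j => 1 - ∑ i ∈ N j, q i with hQ
    let P : Option {i // i ∈ F} → ℝ := fun o => o.elim (1 - ∑ i ∈ F, q i) (fun i => q i.1)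
    let v : Option {i // i ∈ F} → ℝ := fun o => o.elim (∑ j, wt j * Q j ^ p)
      (fun i => ∑ j, (if i.1 ∈ N j then 0 else wt j) * Q j ^ p)
    have hP : ∀ o, 0 ≤ P o := by
      intro o
      cases o with
      | none => exact sub_nonneg.2 hq1
      | some i => exact hq i.1
    have hsub : ∑ i : {i // i ∈ F}, q i.1 = ∑ i ∈ F, q i := Finset.sum_coe_sort F q
    have hP1 : ∑ o, P o = 1 := by
      rw [Fintype.sum_option]
      simp only [P, Option.elim_none, Option.elim_some]
      rw [hsub]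
      ring
    have hPv : ∑ o, P o * v o = ∑ j, wt j * Q j ^ (p + 1) := by
      rw [Fintype.sum_option]
      simp only [P, v, Option.elim_none, Option.elim_some]
      have e1 : ∑ i : {i // i ∈ F}, q i.1 * ∑ j, (if i.1 ∈ N j then 0 else wt j) * Q j ^ p =
          ∑ j, wt j * Q j ^ p * (∑ i ∈ F, q i - ∑ i ∈ N j, q i) := by
        rw [Finset.sum_coe_sort F (fun i => q i * ∑ j, (if i ∈ N j then 0 else wt j) * Q j ^ p)]
        simp only [Finset.mul_sum]
        rw [Finset.sum_comm]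
        refine Finset.sum_congr rfl fun j _ => ?_
        have e2 : ∑ i ∈ N j, q i = ∑ i ∈ F, (if i ∈ N j then q i else 0) := by
          rw [Finset.sum_ite_mem, Finset.inter_eq_right.2 (hN j)]
        rw [e2, ← Finset.sum_sub_distrib, Finset.mul_sum]
        refine Finset.sum_congr rfl fun i _ => ?_
        split_ifs <;> ring
      rw [e1, Finset.mul_sum, ← Finset.sum_add_distrib]
      refine Finset.sum_congr rfl fun j _ => ?_
      simp only [hQ]
      ring
    obtain ⟨o, ho⟩ := exists_le_avg P v hP hP1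
    rw [hPv] at ho
    cases o with
    | none =>
      refine ⟨S0, hSF0, hSc0.trans (Nat.le_succ _), hS0.trans ho⟩
    | some i =>
      refine ⟨insert i.1 (S i.1), Finset.insert_subset i.2 (hSF i.1),
        (Finset.card_insert_le _ _).trans (Nat.succ_le_succ (hSc i.1)), ?_⟩
      exact (ind_insert_le N wt i.1 (S i.1)).trans ((hS i.1).trans ho)

/-- The choice is nonempty if `1 ≤ p` and `F` is nonempty. -/
theorem pickK' {m : ℕ} {J : Type} [Fintype J] (F : Finset (Fin m)) (hF : F.Nonempty)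
    (q : Fin m → ℝ) (hq : ∀ i, 0 ≤ q i) (hq1 : ∑ i ∈ F, q i ≤ 1) (N : J → Finset (Fin m))
    (hN : ∀ j, N j ⊆ F) (p : ℕ) (hp : 1 ≤ p) (wt : J → ℝ) (hw : ∀ j, 0 ≤ wt j) :
    ∃ S : Finset (Fin m), S.Nonempty ∧ S ⊆ F ∧ S.card ≤ p ∧
      ∑ j, (if Disjoint S (N j) then wt j else 0) ≤ ∑ j, wt j * (1 - ∑ i ∈ N j, q i) ^ p := by
  obtain ⟨S, h1, h2, h3⟩ := pickK F q hq hq1 N hN p wt hw
  rcases S.eq_empty_or_nonempty with h | h
  · obtain ⟨i0, hi0⟩ := hF
    refine ⟨{i0}, Finset.singleton_nonempty _, Finset.singleton_subset_iff.2 hi0,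
      by rw [Finset.card_singleton]; exact hp, le_trans (Finset.sum_le_sum fun j _ => ?_) h3⟩
    rw [h, if_pos (Finset.disjoint_empty_left _)]
    split_ifs
    · exact le_rfl
    · exact hw j
  · exact ⟨S, h, h1, h2, h3⟩

theorem miss_le (s δ k0 : ℝ) (p : ℕ) (hs : 0 ≤ s) (hδ : 0 ≤ δ) (hk : 1 ≤ k0)
    (hsk : s ≤ k0 + δ) :
    (1 - s / (k0 + δ)) ^ p ≤ max 0 (1 - s) + Real.exp (-(p / k0)) + δ := by
  have hkδ : 0 < k0 + δ := by linarith
  have hk0 : 0 < k0 := by linarith
  set b : ℝ := p / (k0 + δ) with hb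
  have hb0 : 0 ≤ b := div_nonneg (Nat.cast_nonneg _) hkδ.le
  have h1 : (1 - s / (k0 + δ)) ^ p ≤ Real.exp (-(b * s)) := by
    have h2 : 1 - s / (k0 + δ) ≤ Real.exp (-(s / (k0 + δ))) := by
      have := Real.add_one_le_exp (-(s / (k0 + δ)))
      linarith
    have h3 : 0 ≤ 1 - s / (k0 + δ) := by
      rw [sub_nonneg, div_le_one hkδ]
      exact hsk
    refine (pow_le_pow_left₀ h3 h2 p).trans_eq ?_
    rw [← Real.exp_nat_mul]
    congr 1
    rw [hb]
    ring
  have h4 : Real.exp (-(b * s)) ≤ max 0 (1 - s) + Real.exp (-b) := by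
    have hE0 : 0 < Real.exp (-b) := Real.exp_pos _
    by_cases hc : 1 ≤ s
    · have h5 : Real.exp (-(b * s)) ≤ Real.exp (-b) := by
        apply Real.exp_le_exp.2
        nlinarith
      linarith [le_max_left (0 : ℝ) (1 - s)]
    · push Not at hc
      have h6 : Real.exp (-(b * s)) ≤ (1 - s) * 1 + s * Real.exp (-b) := by
        have hconv := convexOn_exp.2 (Set.mem_univ (0 : ℝ)) (Set.mem_univ (-b))
          (sub_nonneg.2 hc.le) hs (by ring : (1 - s) + s = 1)
        simp only [smul_eq_mul, mul_zero, zero_add, Real.exp_zero] at hconv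
        have e : -(b * s) = s * -b := by ring
        rw [e]
        exact hconv
      have h7 : s * Real.exp (-b) ≤ Real.exp (-b) := by nlinarith
      linarith [le_max_right (0 : ℝ) (1 - s)]
  have h8 : Real.exp (-b) ≤ Real.exp (-(p / k0)) + δ := by
    have e1 : (p : ℝ) / k0 = b + b * δ / k0 := by
      rw [hb]
      field_simp
    have e2 : Real.exp (-(p / k0)) = Real.exp (-b) * Real.exp (-(b * δ / k0)) := by
      rw [← Real.exp_add]
      congr 1
      rw [e1]
      ring
    have h9 : 1 - b * δ / k0 ≤ Real.exp (-(b * δ / k0)) := by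
      have := Real.add_one_le_exp (-(b * δ / k0))
      linarith
    have h10 : Real.exp (-b) * (1 - b * δ / k0) ≤ Real.exp (-(p / k0)) := by
      rw [e2]
      exact mul_le_mul_of_nonneg_left h9 (Real.exp_pos _).le
    have h11 : Real.exp (-b) * b ≤ 1 := by
      have h12 : b ≤ Real.exp b := by
        have := Real.add_one_le_exp b
        linarith
      calc Real.exp (-b) * b ≤ Real.exp (-b) * Real.exp b :=
            mul_le_mul_of_nonneg_left h12 (Real.exp_pos _).le
        _ = 1 := by rw [← Real.exp_add]; simp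
    have h13 : Real.exp (-b) * (b * δ / k0) ≤ δ := by
      have e3 : Real.exp (-b) * (b * δ / k0) = (Real.exp (-b) * b) * (δ / k0) := by ring
      rw [e3]
      have h14 : δ / k0 ≤ δ := div_le_self hδ hk
      have h15 : 0 ≤ δ / k0 := div_nonneg hδ hk0.le
      nlinarith
    linarith
  linarith

end Pool.Agent.Lib.P47m
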