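import Pool.Agent.Lib.P47c.ServM
import Pool.Agent.Lib.P47c.FU
import Pool.Agent.Lib.P47m.Defs
import Pool.Agent.Lib.P47m.Rnd

/-!
The standard linear program for k-median with the distances 1 and `D` and isolated clients.
-/

open scoped BigOperators

namespace Pool.Agent.Lib.P47m

open Pool.Agent.Lib.P47c Pool.Agent.Lib.P47c.FUAux

namespace KUBAux

/-- The left hand sides. -/
noncomputable def AK (m M : ℕ) : Unit ⊕ JU m M → YU m M →ₗ[ℝ] ℝ
  | Sum.inl _ => ∑ i, uy m M i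
  | Sum.inr j => AU m M j

/-- The right hand sides. -/
noncomputable def CK (m M k : ℕ) : Unit ⊕ JU m M → ℝ
  | Sum.inl _ => k
  | Sum.inr j => CU m M j

theorem card_JK (m M : ℕ) : Fintype.card (Unit ⊕ JU m M) ≤ 2 * (m + 1) * (M + 1) := by
  simp only [Fintype.card_sum, Fintype.card_fin, Fintype.card_unit, Fintype.card_prod]
  have h : 2 * (m + 1) * (M + 1) = m * M + m * M + 2 * m + 2 * M + 2 := by ring
  rw [h]
  omega

theorem PK_feasible (m M k : ℕ) (S : Finset (Fin m)) (σ : Fin M → Fin m) (hS : S.Nonempty)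
    (hSk : S.card ≤ k) (hσ : ∀ j, σ j ∈ S) (j : Unit ⊕ JU m M) :
    AK m M j (PU m M S σ) ≤ CK m M k j := by
  rcases j with u | j
  · simp only [AK, CK, PU, LinearMap.sum_apply, uy_apply]
    rw [Finset.sum_ite_mem, Finset.univ_inter, Finset.sum_const, nsmul_eq_mul, mul_one]
    exact_mod_cast hSk
  · exact PU_feasible m M S σ hS hσ j

/-- The distances of a client at distance 1 or at least `D`. -/
theorem main_ge {m : ℕ} (d x : Fin m → ℝ) (D : ℝ) (hD : 1 < D) (N : Finset (Fin m))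
    (hN : ∀ i, i ∈ N → d i = 1) (hN' : ∀ i, i ∉ N → D ≤ d i) (hx : ∀ i, 0 ≤ x i)
    (hx1 : 1 ≤ ∑ i, x i) : 1 + (D - 1) * max 0 (1 - ∑ i ∈ N, x i) ≤ ∑ i, d i * x i := by
  classical
  have h1 : ∑ i, x i + (D - 1) * (∑ i, x i - ∑ i ∈ N, x i) ≤ ∑ i, d i * x i := by
    have h2 : ∑ i ∈ N, x i = ∑ i, (if i ∈ N then x i else 0) := by
      rw [Finset.sum_ite_mem, Finset.univ_inter]
    rw [h2, ← Finset.sum_sub_distrib, Finset.mul_sum, ← Finset.sum_add_distrib]
    refine Finset.sum_le_sum fun i _ => ?_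
    by_cases hi : i ∈ N
    · rw [if_pos hi, hN i hi]
      linarith
    · rw [if_neg hi]
      have := mul_le_mul_of_nonneg_right (hN' i hi) (hx i)
      linarith
  have h3 : ∑ i ∈ N, x i ≤ ∑ i, x i :=
    Finset.sum_le_sum_of_subset_of_nonneg (Finset.subset_univ _) fun i _ _ => hx i
  have h4 : max 0 (1 - ∑ i ∈ N, x i) ≤ ∑ i, x i - ∑ i ∈ N, x i :=
    max_le (by linarith) (by linarith)
  have h5 : (D - 1) * max 0 (1 - ∑ i ∈ N, x i) ≤ (D - 1) * (∑ i, x i - ∑ i ∈ N, x i) :=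
    mul_le_mul_of_nonneg_left h4 (by linarith)
  linarith

/-- The distances of an isolated client. -/
theorem iso_ge {m : ℕ} (d x : Fin m → ℝ) (ρ L : ℝ) (hρ : 0 ≤ ρ) (hρ1 : ρ ≤ 1) (hL : 1 ≤ L)
    (N : Finset (Fin m)) (hN : ∀ i, i ∈ N → ρ ≤ d i) (hN' : ∀ i, i ∉ N → L ≤ d i)
    (hx : ∀ i, 0 ≤ x i) (hx1 : 1 ≤ ∑ i, x i) :
    ρ + (L - 1) * max 0 (1 - ∑ i ∈ N, x i) ≤ ∑ i, d i * x i := by
  classical
  set t := ∑ i ∈ N, x i with ht
  have h1 : ρ * t + L * (∑ i, x i - t) ≤ ∑ i, d i * x i := by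
    have h2 : t = ∑ i, (if i ∈ N then x i else 0) := by
      rw [Finset.sum_ite_mem, Finset.univ_inter]
    rw [h2, ← Finset.sum_sub_distrib, Finset.mul_sum, Finset.mul_sum, ← Finset.sum_add_distrib]
    refine Finset.sum_le_sum fun i _ => ?_
    by_cases hi : i ∈ N
    · rw [if_pos hi]
      have := mul_le_mul_of_nonneg_right (hN i hi) (hx i)
      linarith
    · rw [if_neg hi]
      have := mul_le_mul_of_nonneg_right (hN' i hi) (hx i)
      linarith
  have h3 : t ≤ ∑ i, x i :=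
    Finset.sum_le_sum_of_subset_of_nonneg (Finset.subset_univ _) fun i _ _ => hx i
  refine le_trans ?_ h1
  rcases le_total t 1 with h | h
  · rw [max_eq_right (by linarith)]
    have h4 : L * (1 - t) ≤ L * (∑ i, x i - t) := mul_le_mul_of_nonneg_left (by linarith)
      (by linarith)
    have h5 : 0 ≤ (1 - ρ) * (1 - t) := mul_nonneg (by linarith) (by linarith)
    nlinarith
  · rw [max_eq_left (by linarith), mul_zero, add_zero]
    have h4 : 0 ≤ L * (∑ i, x i - t) := mul_nonneg (by linarith) (by linarith)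
    nlinarith

end KUBAux

open KUBAux

theorem kUpD (m M k : ℕ) : ∃ (Y : Type) (_ : AddCommGroup Y) (_ : Module ℝ Y) (R : ℕ)
      (A : Fin R → Y →ₗ[ℝ] ℝ) (c : Fin R → ℝ) (pt : Finset (Fin m) → (Fin M → Fin m) → Y),
      R ≤ 2 * (m + 1) * (M + 1) ∧
      (∀ S σ, S.Nonempty → S.card ≤ k → (∀ j, σ j ∈ S) → ∀ i, A i (pt S σ) ≤ c i) ∧
      ∀ (I : Inst m M) (D : ℝ) (u K : ℕ), 1 < D → Isolated D u I → u < k → u < K →
        ApproxCentres I {y | ∀ i, A i y ≤ c i} pt k K
          (1 + (D - 1) * Real.exp (-(((K : ℝ) - u) / ((k : ℝ) - u)))) := by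
  classical
  let e := Fintype.equivFin (Unit ⊕ JU m M)
  refine ⟨YU m M, inferInstance, inferInstance, Fintype.card (Unit ⊕ JU m M),
    fun j => AK m M (e.symm j), fun j => CK m M k (e.symm j), PU m M, card_JK m M,
    fun S σ hS hSk hσ j => PK_feasible m M k S σ hS hSk hσ (e.symm j), ?_⟩
  rintro I D u K hD ⟨hop, F, c, own, hF, hcr, hdis, hown, hmain⟩ huk huK
  refine ⟨∑ j ∈ I.clients, ∑ i, I.space.dist (Sum.inl i) (Sum.inr j) • ux m M i j, 0, ?_, ?_⟩
  · intro S σ hS _ hσ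
    rw [cost_eq, serv_nearest I S hS σ hσ, Finset.sum_eq_zero fun i _ => hop i]
    simp only [LinearMap.sum_apply, LinearMap.smul_apply, ux_apply, smul_eq_mul, PU]
    have h2 : ∀ j, ∑ i, I.space.dist (Sum.inl i) (Sum.inr j) * (if σ j = i then 1 else 0) =
        I.space.dist (Sum.inl (σ j)) (Sum.inr j) := by
      intro j
      simp
    rw [Finset.sum_congr rfl fun j _ => h2 j, add_zero, zero_add]
  intro y hy
  have hyK : ∀ j : Unit ⊕ JU m M, AK m M j y ≤ CK m M k j := by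
    intro j
    have := hy (e j)
    simpa using this
  have hy' : ∀ j : JU m M, AU m M j y ≤ CU m M j := fun j => hyK (Sum.inr j)
  have hyk : ∑ i, y.1 i ≤ k := by
    have := hyK (Sum.inl ())
    simp only [AK, CK, LinearMap.sum_apply, uy_apply] at this
    exact this
  have hy0 : ∀ i, 0 ≤ y.1 i := by
    intro i
    have := hy' (Sum.inl i)
    simp only [AU, CU, LinearMap.neg_apply, uy_apply] at this
    linarith
  have hx0 : ∀ i j, 0 ≤ y.2 i j := by
    intro i j
    have := hy' (Sum.inr (Sum.inr (Sum.inl (i, j))))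
    simp only [AU, CU, LinearMap.neg_apply, ux_apply] at this
    linarith
  have hxy : ∀ i j, y.2 i j ≤ y.1 i := by
    intro i j
    have := hy' (Sum.inr (Sum.inr (Sum.inr (Sum.inl (i, j)))))
    simp only [AU, CU, LinearMap.sub_apply, ux_apply, uy_apply] at this
    linarith
  have hx1 : ∀ j, 1 ≤ ∑ i, y.2 i j := by
    intro j
    have := hy' (Sum.inr (Sum.inr (Sum.inr (Sum.inr j))))
    simp only [AU, CU, LinearMap.neg_apply, LinearMap.sum_apply, ux_apply] at this
    linarith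
  -- the nearest own facility of an isolated client
  have hnear : ∀ r, ∃ i ∈ own r, ∀ i' ∈ own r,
      I.space.dist (Sum.inl i) (Sum.inr (c r)) ≤ I.space.dist (Sum.inl i') (Sum.inr (c r)) :=
    fun r => Finset.exists_min_image (own r) _ (hcr r).2.1
  choose o ho homin using hnear
  set ρ : Fin u → ℝ := fun r => I.space.dist (Sum.inl (o r)) (Sum.inr (c r)) with hρ
  have hρ0 : ∀ r, 0 ≤ ρ r := fun r => I.space.dist_nonneg _ _
  have hρ1 : ∀ r, ρ r ≤ 1 := fun r => (hown r (o r)).1 (ho r)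
  set L : ℝ := D * I.clients.card + 1 with hL
  have hcc : (0 : ℝ) ≤ I.clients.card := Nat.cast_nonneg _
  have hL1 : 1 ≤ L := by
    have : 0 ≤ D * (I.clients.card : ℝ) := mul_nonneg (by linarith) hcc
    linarith
  set δ : Fin u → ℝ := fun r => max 0 (1 - ∑ i ∈ own r, y.2 i (c r)) with hδ
  have hδ0 : ∀ r, 0 ≤ δ r := fun r => le_max_left _ _
  -- the near facilities
  let N : Fin M → Finset (Fin m) := fun j =>
    Finset.univ.filter (fun i => I.space.dist (Sum.inl i) (Sum.inr j) = 1)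
  have hN : ∀ i j, i ∈ N j ↔ I.space.dist (Sum.inl i) (Sum.inr j) = 1 := by
    intro i j
    simp [N]
  set Mn : Finset (Fin M) := I.clients.filter (fun j => ∀ r, c r ≠ j) with hMn
  have hMnc : ∀ j ∈ Mn, j ∈ I.clients ∧ ∀ r, c r ≠ j := fun j hj => Finset.mem_filter.1 hj
  have hNF : ∀ j ∈ Mn, N j ⊆ F := by
    intro j hj i hi
    by_contra hiF
    have h1 := (hmain j (hMnc j hj).1 (hMnc j hj).2 i).2 hiF
    rw [(hN i j).1 hi] at h1
    linarith
  have hsplit : ∀ g : Fin M → ℝ, ∑ j ∈ I.clients, g j = ∑ r, g (c r) + ∑ j ∈ Mn, g j := by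
    intro g
    have h1 : I.clients.filter (fun j => ¬ ∀ r, c r ≠ j) = Finset.univ.map c := by
      ext j
      rw [Finset.mem_filter, Finset.mem_map]
      constructor
      · rintro ⟨_, h⟩
        push Not at h
        obtain ⟨r, hr⟩ := h
        exact ⟨r, Finset.mem_univ _, hr⟩
      · rintro ⟨r, _, rfl⟩
        exact ⟨(hcr r).1, fun h => h r rfl⟩
    rw [← Finset.sum_filter_add_sum_filter_not I.clients (fun j => ∀ r, c r ≠ j), h1,
      Finset.sum_map, add_comm]
  have hMcard : (Mn.card : ℝ) ≤ I.clients.card := by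
    exact_mod_cast Finset.card_le_card (Finset.filter_subset _ _)
  -- the number of main facilities
  have hk0 : (1 : ℝ) ≤ (k : ℝ) - u := by
    have : (u : ℝ) + 1 ≤ k := by exact_mod_cast huk
    linarith
  set k0 : ℝ := (k : ℝ) - u with hk0def
  set Δ : ℝ := ∑ r, δ r with hΔ
  have hΔ0 : 0 ≤ Δ := Finset.sum_nonneg fun r _ => hδ0 r
  have hyF : ∑ i ∈ F, y.1 i ≤ k0 + Δ := by
    have h1 : ∑ i ∈ F, y.1 i + ∑ r, ∑ i ∈ own r, y.1 i ≤ ∑ i, y.1 i := by
      rw [← Finset.sum_biUnion (s := Finset.univ) (t := own)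
        (fun r _ r' _ h => hdis r r' h), ← Finset.sum_union]
      · exact Finset.sum_le_sum_of_subset_of_nonneg (Finset.subset_univ _) fun i _ _ => hy0 i
      · rw [Finset.disjoint_biUnion_right]
        exact fun r _ => (hcr r).2.2
    have h2 : (u : ℝ) - Δ ≤ ∑ r, ∑ i ∈ own r, y.1 i := by
      have h3 : (u : ℝ) - Δ = ∑ r : Fin u, (1 - δ r) := by
        rw [Finset.sum_sub_distrib]
        simp [hΔ]
      rw [h3]
      refine Finset.sum_le_sum fun r _ => ?_
      have h4 : 1 - ∑ i ∈ own r, y.2 i (c r) ≤ δ r := le_max_right _ _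
      have h5 : ∑ i ∈ own r, y.2 i (c r) ≤ ∑ i ∈ own r, y.1 i :=
        Finset.sum_le_sum fun i _ => hxy i _
      linarith
    rw [hk0def]
    linarith
  have hkΔ : 0 < k0 + Δ := by linarith
  obtain ⟨p, hp⟩ : ∃ p : ℕ, p = K - u := ⟨_, rfl⟩
  have hp1 : 1 ≤ p := by omega
  have hpK : (p : ℝ) = (K : ℝ) - u := by
    rw [hp, Nat.cast_sub huK.le]
  let J := {j // j ∈ Mn}
  obtain ⟨S, hS0, hSF, hSp, hSv⟩ := pickK' (J := J) F hF (fun i => y.1 i / (k0 + Δ))
    (fun i => div_nonneg (hy0 i) hkΔ.le)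
    (by rw [← Finset.sum_div, div_le_one hkΔ]; exact hyF)
    (fun j => N j.1) (fun j => hNF j.1 j.2) p hp1 (fun _ => D - 1) (fun _ => by linarith)
  -- the solution
  obtain ⟨S1, hS1⟩ : ∃ S1 : Finset (Fin m), S1 = S ∪ Finset.univ.image o := ⟨_, rfl⟩
  have hS1n : S1.Nonempty := by
    rw [hS1]
    exact hS0.mono Finset.subset_union_left
  have hS1c : S1.card ≤ K := by
    rw [hS1]
    refine (Finset.card_union_le _ _).trans ?_
    have h1 : (Finset.univ.image o).card ≤ u := by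
      refine Finset.card_image_le.trans ?_
      rw [Finset.card_univ, Fintype.card_fin]
    omega
  have hopt : I.opt (fun S => S.Nonempty ∧ S.card ≤ K) ≤ I.cost S1 := by
    unfold Inst.opt
    exact ciInf_le (f := fun S : {S : Finset (Fin m) // S.Nonempty ∧ S.card ≤ K} => I.cost S.1)
      (Set.finite_range _).bddBelow ⟨S1, hS1n, hS1c⟩
  have hcost : I.cost S1 ≤ ∑ r, ρ r + ∑ j ∈ Mn, (1 + (if Disjoint S (N j) then D - 1 else 0)) := by
    rw [cost_eq, Finset.sum_eq_zero fun i _ => hop i, zero_add]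
    unfold serv
    rw [hsplit]
    refine add_le_add (Finset.sum_le_sum fun r _ => ?_) (Finset.sum_le_sum fun j hj => ?_)
    · exact infi_finite_le (fun i : S1 => I.space.dist (Sum.inl i.1) (Sum.inr (c r)))
        ⟨o r, by rw [hS1]; exact Finset.mem_union_right _ (Finset.mem_image_of_mem _
          (Finset.mem_univ r))⟩
    · by_cases hd : Disjoint S (N j)
      · rw [if_pos hd]
        obtain ⟨i, hi⟩ := hS0
        refine (infi_finite_le (fun i : S1 => I.space.dist (Sum.inl i.1) (Sum.inr j))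
          ⟨i, by rw [hS1]; exact Finset.mem_union_left _ hi⟩).trans ?_
        rcases (hmain j (hMnc j hj).1 (hMnc j hj).2 i).1 (hSF hi) with h | h
        · show I.space.dist (Sum.inl i) (Sum.inr j) ≤ _
          rw [h]
          linarith
        · show I.space.dist (Sum.inl i) (Sum.inr j) ≤ _
          rw [h]
          linarith
      · rw [if_neg hd]
        obtain ⟨i, hiS, hiN⟩ := Finset.not_disjoint_iff.1 hd
        refine (infi_finite_le (fun i : S1 => I.space.dist (Sum.inl i.1) (Sum.inr j))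
          ⟨i, by rw [hS1]; exact Finset.mem_union_left _ hiS⟩).trans ?_
        show I.space.dist (Sum.inl i) (Sum.inr j) ≤ _
        rw [(hN i j).1 hiN]
        linarith
  -- the expected cost
  set wt : Fin M → ℝ := fun j => max 0 (1 - ∑ i ∈ N j, y.2 i j) with hwt
  set E : ℝ := Real.exp (-(((K : ℝ) - u) / k0)) with hE
  have hE0 : 0 < E := Real.exp_pos _
  have hmiss : ∑ j ∈ Mn, (if Disjoint S (N j) then D - 1 else 0) ≤
      (D - 1) * ∑ j ∈ Mn, wt j + Mn.card * ((D - 1) * E) + Mn.card * ((D - 1) * Δ) := by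
    have h1 : ∑ j ∈ Mn, (if Disjoint S (N j) then D - 1 else 0) =
        ∑ j : J, (if Disjoint S (N j.1) then D - 1 else 0) :=
      (Finset.sum_coe_sort Mn (fun j => if Disjoint S (N j) then D - 1 else 0)).symm
    rw [h1]
    refine hSv.trans ?_
    have h2 : ∑ j : J, (D - 1) * (1 - ∑ i ∈ N j.1, y.1 i / (k0 + Δ)) ^ p =
        ∑ j ∈ Mn, (D - 1) * (1 - ∑ i ∈ N j, y.1 i / (k0 + Δ)) ^ p :=
      Finset.sum_coe_sort Mn (fun j => (D - 1) * (1 - ∑ i ∈ N j, y.1 i / (k0 + Δ)) ^ p)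
    rw [h2]
    have h3 : ∀ j ∈ Mn, (D - 1) * (1 - ∑ i ∈ N j, y.1 i / (k0 + Δ)) ^ p ≤
        (D - 1) * (wt j + E + Δ) := by
      intro j hj
      apply mul_le_mul_of_nonneg_left _ (by linarith)
      rw [← Finset.sum_div]
      have h4 := miss_le (∑ i ∈ N j, y.1 i) Δ k0 p (Finset.sum_nonneg fun i _ => hy0 i) hΔ0 hk0
        ((Finset.sum_le_sum_of_subset_of_nonneg (hNF j hj) fun i _ _ => hy0 i).trans hyF)
      rw [hpK] at h4
      have h5 : max 0 (1 - ∑ i ∈ N j, y.1 i) ≤ wt j := by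
        apply max_le_max le_rfl
        have : ∑ i ∈ N j, y.2 i j ≤ ∑ i ∈ N j, y.1 i := Finset.sum_le_sum fun i _ => hxy i j
        linarith
      linarith
    refine (Finset.sum_le_sum h3).trans_eq ?_
    rw [← Finset.mul_sum, Finset.sum_add_distrib, Finset.sum_add_distrib, Finset.sum_const,
      Finset.sum_const, nsmul_eq_mul, nsmul_eq_mul]
    ring
  -- the value of the program
  have hval : ∑ r, ρ r + (L - 1) * Δ + ∑ j ∈ Mn, (1 + (D - 1) * wt j) ≤
      ∑ j ∈ I.clients, ∑ i, I.space.dist (Sum.inl i) (Sum.inr j) * y.2 i j := by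
    rw [hsplit, hΔ, Finset.mul_sum, ← Finset.sum_add_distrib]
    refine add_le_add (Finset.sum_le_sum fun r _ => ?_) (Finset.sum_le_sum fun j hj => ?_)
    · exact iso_ge (fun i => I.space.dist (Sum.inl i) (Sum.inr (c r))) (fun i => y.2 i (c r))
        (ρ r) L (hρ0 r) (hρ1 r) hL1 (own r) (fun i hi => homin r i hi)
        (fun i hi => (hown r i).2 hi) (fun i => hx0 i _) (hx1 _)
    · refine main_ge (fun i => I.space.dist (Sum.inl i) (Sum.inr j)) (fun i => y.2 i j) D hD (N j)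
        (fun i hi => (hN i j).1 hi) (fun i hi => ?_) (fun i => hx0 i j) (hx1 j)
      by_cases hiF : i ∈ F
      · rcases (hmain j (hMnc j hj).1 (hMnc j hj).2 i).1 hiF with h | h
        · exact absurd ((hN i j).2 h) hi
        · exact h.ge
      · exact (hmain j (hMnc j hj).1 (hMnc j hj).2 i).2 hiF
  have hw : (∑ j ∈ I.clients, ∑ i, I.space.dist (Sum.inl i) (Sum.inr j) • ux m M i j :
      YU m M →ₗ[ℝ] ℝ) y =
      ∑ j ∈ I.clients, ∑ i, I.space.dist (Sum.inl i) (Sum.inr j) * y.2 i j := by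
    simp only [LinearMap.sum_apply, LinearMap.smul_apply, ux_apply, smul_eq_mul]
  rw [hw, add_zero]
  have hb0 : 0 < 1 + (D - 1) * E := by
    have : 0 ≤ (D - 1) * E := mul_nonneg (by linarith) hE0.le
    linarith
  rw [div_le_iff₀ hb0]
  have hA : ∑ j ∈ Mn, (1 + (D - 1) * wt j) = Mn.card + (D - 1) * ∑ j ∈ Mn, wt j := by
    rw [Finset.sum_add_distrib, Finset.sum_const, nsmul_eq_mul, mul_one, ← Finset.mul_sum]
  have hA' : ∑ j ∈ Mn, (1 + (if Disjoint S (N j) then D - 1 else 0)) =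
      Mn.card + ∑ j ∈ Mn, (if Disjoint S (N j) then D - 1 else 0) := by
    rw [Finset.sum_add_distrib, Finset.sum_const, nsmul_eq_mul, mul_one]
  rw [hA'] at hcost
  rw [hA] at hval
  set W := ∑ j ∈ I.clients, ∑ i, I.space.dist (Sum.inl i) (Sum.inr j) * y.2 i j with hW
  have hρs : 0 ≤ ∑ r, ρ r := Finset.sum_nonneg fun r _ => hρ0 r
  have hws : 0 ≤ (D - 1) * ∑ j ∈ Mn, wt j :=
    mul_nonneg (by linarith) (Finset.sum_nonneg fun j _ => le_max_left _ _)
  have hLΔ : Mn.card * ((D - 1) * Δ) ≤ (L - 1) * Δ := by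
    have h1 : (Mn.card : ℝ) * (D - 1) ≤ L - 1 := by
      rw [hL]
      nlinarith
    have := mul_le_mul_of_nonneg_right h1 hΔ0
    linarith
  have hLΔ0 : 0 ≤ (L - 1) * Δ := mul_nonneg (by linarith) hΔ0
  have hMc0 : (0 : ℝ) ≤ Mn.card := Nat.cast_nonneg _
  have hWM : (Mn.card : ℝ) ≤ W := by linarith
  have hfin : Mn.card * ((D - 1) * E) ≤ W * ((D - 1) * E) :=
    mul_le_mul_of_nonneg_right hWM (mul_nonneg (by linarith) hE0.le)
  linarith

end Pool.Agent.Lib.P47m
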